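import Mathlib

/-!
# Finite Bernoulli product probabilities (elementary toolbox)
-/

namespace Pool.Agent.W_MP_6e7106_pr

open Finset

set_option linter.unusedSectionVars false
set_option linter.unusedSimpArgs false

section Basic

variable {ι κ : Type*} [Fintype ι] [DecidableEq ι] [Fintype κ] [DecidableEq κ]

/-- weight of a configuration of independent Bernoulli(p) variables -/
noncomputable def wt (p : ℝ) (ω : ι → Bool) : ℝ := ∏ i, if ω i then p else 1 - p

open Classical in
/-- probability of the event `A` -/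
noncomputable def Pr (p : ℝ) (A : (ι → Bool) → Prop) : ℝ :=
  ∑ ω, if A ω then wt p ω else 0

variable {p : ℝ}

lemma wt_nonneg (hp0 : 0 ≤ p) (hp1 : p ≤ 1) (ω : ι → Bool) : 0 ≤ wt p ω := by
  unfold wt
  apply Finset.prod_nonneg
  intro i _
  split_ifs <;> linarith

lemma sum_prod_pi (g : ι → Bool → ℝ) : ∑ ω : ι → Bool, ∏ i, g i (ω i) = ∏ i, ∑ b, g i b := by
  rw [Finset.prod_univ_sum, Fintype.piFinset_univ]

lemma sum_wt : ∑ ω : ι → Bool, wt p ω = 1 := by
  unfold wt
  rw [sum_prod_pi (fun _ b => if b then p else 1 - p)]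
  simp

lemma Pr_nonneg (hp0 : 0 ≤ p) (hp1 : p ≤ 1) (A : (ι → Bool) → Prop) : 0 ≤ Pr p A := by
  unfold Pr
  apply Finset.sum_nonneg
  intro ω _
  split_ifs
  · exact wt_nonneg hp0 hp1 ω
  · exact le_rfl

lemma Pr_mono (hp0 : 0 ≤ p) (hp1 : p ≤ 1) {A B : (ι → Bool) → Prop} (h : ∀ ω, A ω → B ω) :
    Pr p A ≤ Pr p B := by
  unfold Pr
  apply Finset.sum_le_sum
  intro ω _
  by_cases hA : A ω
  · simp [hA, h ω hA]
  · simp only [hA, if_false]
    split_ifs
    · exact wt_nonneg hp0 hp1 ω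
    · exact le_rfl

lemma Pr_congr {A B : (ι → Bool) → Prop} (h : ∀ ω, A ω ↔ B ω) : Pr p A = Pr p B := by
  have : A = B := funext fun ω => propext (h ω)
  rw [this]

lemma Pr_true : Pr p (fun _ : ι → Bool => True) = 1 := by
  unfold Pr
  simpa using sum_wt (ι := ι) (p := p)

lemma Pr_le_one (hp0 : 0 ≤ p) (hp1 : p ≤ 1) (A : (ι → Bool) → Prop) : Pr p A ≤ 1 := by
  rw [← Pr_true (ι := ι) (p := p)]
  exact Pr_mono hp0 hp1 fun _ _ => trivial

lemma Pr_not (A : (ι → Bool) → Prop) : Pr p (fun ω => ¬ A ω) = 1 - Pr p A := by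
  rw [← sum_wt (ι := ι) (p := p)]
  unfold Pr
  rw [← Finset.sum_sub_distrib]
  apply Finset.sum_congr rfl
  intro ω _
  by_cases h : A ω <;> simp [h]

lemma Pr_or_le (hp0 : 0 ≤ p) (hp1 : p ≤ 1) (A B : (ι → Bool) → Prop) :
    Pr p (fun ω => A ω ∨ B ω) ≤ Pr p A + Pr p B := by
  unfold Pr
  rw [← Finset.sum_add_distrib]
  apply Finset.sum_le_sum
  intro ω _
  have := wt_nonneg hp0 hp1 ω
  by_cases h : A ω <;> by_cases h' : B ω <;> simp [h, h', this]

lemma Pr_exists_le (hp0 : 0 ≤ p) (hp1 : p ≤ 1) {α : Type*} (s : Finset α)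
    (A : α → (ι → Bool) → Prop) :
    Pr p (fun ω => ∃ a ∈ s, A a ω) ≤ ∑ a ∈ s, Pr p (A a) := by
  classical
  induction s using Finset.induction_on with
  | empty =>
    simp only [Finset.notMem_empty, false_and, exists_false, Finset.sum_empty]
    unfold Pr
    simp
  | insert a s ha ih =>
    rw [Finset.sum_insert ha]
    calc Pr p (fun ω => ∃ b ∈ insert a s, A b ω)
        ≤ Pr p (fun ω => A a ω ∨ ∃ b ∈ s, A b ω) := by
          apply Pr_mono hp0 hp1
          rintro ω ⟨b, hb, h⟩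
          rcases Finset.mem_insert.mp hb with rfl | hb
          · exact Or.inl h
          · exact Or.inr ⟨b, hb, h⟩
      _ ≤ Pr p (A a) + Pr p (fun ω => ∃ b ∈ s, A b ω) := Pr_or_le hp0 hp1 _ _
      _ ≤ _ := by linarith

lemma Pr_equiv (e : ι ≃ κ) (A : (κ → Bool) → Prop) :
    Pr p (fun ω : ι → Bool => A (fun k => ω (e.symm k))) = Pr p A := by
  unfold Pr
  refine Fintype.sum_equiv (Equiv.arrowCongr e (Equiv.refl Bool)) _ _ ?_
  intro ω
  have h1 : (Equiv.arrowCongr e (Equiv.refl Bool)) ω = fun k => ω (e.symm k) := by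
    funext k; rfl
  have h2 : wt p ((Equiv.arrowCongr e (Equiv.refl Bool)) ω) = wt p ω := by
    rw [h1]
    unfold wt
    refine (Fintype.prod_equiv e _ _ ?_).symm
    intro i
    simp
  rw [h2, h1]

lemma Pr_sum (A : (ι → Bool) → Prop) (B : (κ → Bool) → Prop) :
    Pr p (fun ω : ι ⊕ κ → Bool => A (fun i => ω (Sum.inl i)) ∧ B (fun k => ω (Sum.inr k)))
      = Pr p A * Pr p B := by
  unfold Pr
  rw [Finset.sum_mul_sum, ← Finset.sum_product', Finset.univ_product_univ]
  refine Fintype.sum_equiv (Equiv.sumArrowEquivProdArrow ι κ Bool) _ _ ?_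
  intro ω
  have h1 : (Equiv.sumArrowEquivProdArrow ι κ Bool ω).1 = fun i => ω (Sum.inl i) := rfl
  have h2 : (Equiv.sumArrowEquivProdArrow ι κ Bool ω).2 = fun i => ω (Sum.inr i) := rfl
  rw [h1, h2]
  have h3 : wt p ω = wt p (fun i => ω (Sum.inl i)) * wt p (fun i => ω (Sum.inr i)) := by
    unfold wt
    rw [Fintype.prod_sum_type]
  rw [h3]
  by_cases hA : A (fun i => ω (Sum.inl i)) <;> by_cases hB : B (fun k => ω (Sum.inr k)) <;>
    simp [hA, hB]

/-- the marginal along an injection is again a Bernoulli product -/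
lemma Pr_comp_injective {f : ι → κ} (hf : Function.Injective f) (A : (ι → Bool) → Prop) :
    Pr p (fun ω : κ → Bool => A (fun i => ω (f i))) = Pr p A := by
  classical
  let e : ι ⊕ {k // k ∉ Set.range f} ≃ κ :=
    (Equiv.sumCongr (Equiv.ofInjective f hf) (Equiv.refl _)).trans
      (Equiv.sumCompl (fun k => k ∈ Set.range f))
  have he : ∀ i, e (Sum.inl i) = f i := fun i => rfl
  have h := Pr_equiv (p := p) e (fun ω : κ → Bool => A (fun i => ω (f i)))
  rw [← h]
  have h2 := Pr_sum (p := p) A (fun _ : {k // k ∉ Set.range f} → Bool => True)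
  rw [Pr_true, mul_one] at h2
  rw [← h2]
  apply Pr_congr
  intro ω
  have : ∀ i, e.symm (f i) = Sum.inl i := fun i => by rw [← he i, Equiv.symm_apply_apply]
  simp [this]

/-- `A` only depends on the coordinates in `D`. -/
def Dep (A : (ι → Bool) → Prop) (D : Set ι) : Prop :=
  ∀ ω ω' : ι → Bool, (∀ i ∈ D, ω i = ω' i) → (A ω ↔ A ω')

lemma Pr_and_of_dep {A B : (ι → Bool) → Prop} {D : Set ι} (hA : Dep A D) (hB : Dep B Dᶜ) :
    Pr p (fun ω => A ω ∧ B ω) = Pr p A * Pr p B := by
  classical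
  let e : {i // i ∈ D} ⊕ {i // i ∉ D} ≃ ι := Equiv.sumCompl (fun i => i ∈ D)
  let A' : ({i // i ∈ D} → Bool) → Prop := fun η => A (fun i => if h : i ∈ D then η ⟨i, h⟩ else false)
  let B' : ({i // i ∉ D} → Bool) → Prop := fun η => B (fun i => if h : i ∉ D then η ⟨i, h⟩ else false)
  have hA' : Pr p A = Pr p A' := by
    rw [← Pr_comp_injective (p := p) (f := fun i : {i // i ∈ D} => (i : ι)) Subtype.val_injective A']
    apply Pr_congr
    intro ω
    apply hA
    intro i hi
    simp [hi]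
  have hB' : Pr p B = Pr p B' := by
    rw [← Pr_comp_injective (p := p) (f := fun i : {i // i ∉ D} => (i : ι)) Subtype.val_injective B']
    apply Pr_congr
    intro ω
    apply hB
    intro i hi
    have : i ∉ D := hi
    simp [this]
  rw [hA', hB', ← Pr_sum]
  rw [← Pr_equiv (p := p) e (fun ω => A ω ∧ B ω)]
  apply Pr_congr
  intro ω
  have h1 : A (fun k => ω (e.symm k)) ↔ A' (fun i => ω (Sum.inl i)) := by
    apply hA
    intro i hi
    have : e.symm i = Sum.inl ⟨i, hi⟩ := by
      rw [Equiv.symm_apply_eq]; rfl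
    simp [hi, this]
  have h2 : B (fun k => ω (e.symm k)) ↔ B' (fun i => ω (Sum.inr i)) := by
    apply hB
    intro i hi
    have hi' : i ∉ D := hi
    have : e.symm i = Sum.inr ⟨i, hi'⟩ := by
      rw [Equiv.symm_apply_eq]; rfl
    simp [hi', this]
  rw [h1, h2]

lemma Dep.mono {A : (ι → Bool) → Prop} {D D' : Set ι} (h : Dep A D) (hD : D ⊆ D') : Dep A D' :=
  fun ω ω' hω => h ω ω' fun i hi => hω i (hD hi)

lemma Pr_forall_of_dep {α : Type*} (s : Finset α) (D : α → Set ι)
    (A : α → (ι → Bool) → Prop) (hA : ∀ a, Dep (A a) (D a))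
    (hD : ∀ a b, a ≠ b → Disjoint (D a) (D b)) :
    Pr p (fun ω => ∀ a ∈ s, A a ω) = ∏ a ∈ s, Pr p (A a) := by
  classical
  induction s using Finset.induction_on with
  | empty => simp [Pr_true]
  | insert a s ha ih =>
    rw [Finset.prod_insert ha, ← ih]
    have h1 : Pr p (fun ω => ∀ b ∈ insert a s, A b ω) =
        Pr p (fun ω => A a ω ∧ ∀ b ∈ s, A b ω) := by
      apply Pr_congr
      intro ω
      simp
    rw [h1]
    apply Pr_and_of_dep (hA a)
    intro ω ω' hω
    have key : ∀ b ∈ s, (A b ω ↔ A b ω') := by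
      intro b hb
      apply hA b
      intro i hi
      apply hω
      intro hia
      have hne : a ≠ b := fun h => ha (h ▸ hb)
      exact Set.disjoint_left.mp (hD a b hne) hia hi
    constructor
    · intro h b hb
      exact (key b hb).mp (h b hb)
    · intro h b hb
      exact (key b hb).mpr (h b hb)

lemma Pr_forall_eq_true (s : Finset ι) : Pr p (fun ω => ∀ i ∈ s, ω i = true) = p ^ s.card := by
  have h1 : Pr p (fun ω : ι → Bool => ∀ i ∈ s, ω i = true) =
      ∑ ω : ι → Bool, ∏ i, (if i ∈ s then (if ω i then p else 0) else (if ω i then p else 1 - p)) := by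
    unfold Pr wt
    apply Finset.sum_congr rfl
    intro ω _
    split_ifs with h
    · apply Finset.prod_congr rfl
      intro i _
      by_cases hi : i ∈ s
      · simp [hi, h i hi]
      · simp [hi]
    · push Not at h
      obtain ⟨i, hi, hi'⟩ := h
      symm
      apply Finset.prod_eq_zero (Finset.mem_univ i)
      simp [hi, hi']
  rw [h1, sum_prod_pi (fun i b => if i ∈ s then (if b then p else 0) else (if b then p else 1 - p))]
  have h2 : ∀ i, (∑ b : Bool, if i ∈ s then (if b then p else 0) else (if b then p else 1 - p)) =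
      if i ∈ s then p else 1 := by
    intro i
    by_cases hi : i ∈ s <;> simp [hi]
  simp only [h2]
  rw [Finset.prod_ite_mem]
  simp

lemma Pr_forall_eq_false (s : Finset ι) :
    Pr p (fun ω => ∀ i ∈ s, ω i = false) = (1 - p) ^ s.card := by
  have h1 : Pr p (fun ω : ι → Bool => ∀ i ∈ s, ω i = false) =
      ∑ ω : ι → Bool, ∏ i, (if i ∈ s then (if ω i then 0 else 1 - p) else
        (if ω i then p else 1 - p)) := by
    unfold Pr wt
    apply Finset.sum_congr rfl
    intro ω _
    split_ifs with h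
    · apply Finset.prod_congr rfl
      intro i _
      by_cases hi : i ∈ s
      · simp [hi, h i hi]
      · simp [hi]
    · push Not at h
      obtain ⟨i, hi, hi'⟩ := h
      symm
      apply Finset.prod_eq_zero (Finset.mem_univ i)
      simp [hi, hi']
  rw [h1, sum_prod_pi (fun i b => if i ∈ s then (if b then 0 else 1 - p) else
    (if b then p else 1 - p))]
  have h2 : ∀ i, (∑ b : Bool, if i ∈ s then (if b then 0 else 1 - p) else
      (if b then p else 1 - p)) = if i ∈ s then 1 - p else 1 := by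
    intro i
    by_cases hi : i ∈ s <;> simp [hi]
  simp only [h2]
  rw [Finset.prod_ite_mem]
  simp

end Basic

section Harris

variable {ι : Type*} [Fintype ι] [DecidableEq ι] {p : ℝ}

/-- increasing event -/
def Inc (A : (ι → Bool) → Prop) : Prop := ∀ ω ω' : ι → Bool, ω ≤ ω' → A ω → A ω'

/-- decreasing event -/
def Dec (A : (ι → Bool) → Prop) : Prop := ∀ ω ω' : ι → Bool, ω ≤ ω' → A ω' → A ω

lemma Inc.not {A : (ι → Bool) → Prop} (h : Inc A) : Dec (fun ω => ¬ A ω) :=
  fun ω ω' hω h' hA => h' (h ω ω' hω hA)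

lemma Dec.not {A : (ι → Bool) → Prop} (h : Dec A) : Inc (fun ω => ¬ A ω) :=
  fun ω ω' hω h' hA => h' (h ω ω' hω hA)

lemma Inc.and {A B : (ι → Bool) → Prop} (hA : Inc A) (hB : Inc B) : Inc (fun ω => A ω ∧ B ω) :=
  fun ω ω' hω h => ⟨hA ω ω' hω h.1, hB ω ω' hω h.2⟩

lemma wt_mul (a b : ι → Bool) : wt p a * wt p b = wt p (a ⊓ b) * wt p (a ⊔ b) := by
  unfold wt
  rw [← Finset.prod_mul_distrib, ← Finset.prod_mul_distrib]
  apply Finset.prod_congr rfl
  intro i _
  cases ha : a i <;> cases hb : b i <;> simp [ha, hb, mul_comm]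

/-- Harris inequality -/
lemma harris (hp0 : 0 ≤ p) (hp1 : p ≤ 1) {A B : (ι → Bool) → Prop} (hA : Inc A) (hB : Inc B) :
    Pr p A * Pr p B ≤ Pr p (fun ω => A ω ∧ B ω) := by
  classical
  let f : (ι → Bool) → ℝ := fun ω => if A ω then 1 else 0
  let g : (ι → Bool) → ℝ := fun ω => if B ω then 1 else 0
  have hf0 : 0 ≤ f := fun ω => by simp only [f, Pi.zero_apply]; split_ifs <;> norm_num
  have hg0 : 0 ≤ g := fun ω => by simp only [g, Pi.zero_apply]; split_ifs <;> norm_num
  have hf : Monotone f := by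
    intro ω ω' h
    simp only [f]
    by_cases h1 : A ω
    · simp [h1, hA ω ω' h h1]
    · simp only [h1, if_false]
      split_ifs <;> norm_num
  have hg : Monotone g := by
    intro ω ω' h
    simp only [g]
    by_cases h1 : B ω
    · simp [h1, hB ω ω' h h1]
    · simp only [h1, if_false]
      split_ifs <;> norm_num
  have key := fkg f g (wt p) (fun ω => wt_nonneg hp0 hp1 ω) hf0 hg0 hf hg
    (fun a b => le_of_eq (wt_mul a b))
  rw [sum_wt, one_mul] at key
  have e1 : Pr p A = ∑ a, wt p a * f a := by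
    unfold Pr
    apply Finset.sum_congr rfl
    intro ω _
    simp only [f]
    by_cases h : A ω <;> simp [h]
  have e2 : Pr p B = ∑ a, wt p a * g a := by
    unfold Pr
    apply Finset.sum_congr rfl
    intro ω _
    simp only [g]
    by_cases h : B ω <;> simp [h]
  have e3 : Pr p (fun ω => A ω ∧ B ω) = ∑ a, wt p a * (f a * g a) := by
    unfold Pr
    apply Finset.sum_congr rfl
    intro ω _
    simp only [f, g]
    by_cases h : A ω <;> by_cases h' : B ω <;> simp [h, h']
  rw [e1, e2, e3]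
  exact key

lemma harris_dec (hp0 : 0 ≤ p) (hp1 : p ≤ 1) {A B : (ι → Bool) → Prop} (hA : Dec A) (hB : Dec B) :
    Pr p A * Pr p B ≤ Pr p (fun ω => A ω ∧ B ω) := by
  have h := harris hp0 hp1 hA.not hB.not
  rw [Pr_not, Pr_not] at h
  have h2 : Pr p (fun ω => ¬ (A ω ∧ B ω)) = Pr p (fun ω => ¬ A ω) + Pr p (fun ω => ¬ B ω) -
      Pr p (fun ω => ¬ A ω ∧ ¬ B ω) := by
    unfold Pr
    rw [← Finset.sum_add_distrib, ← Finset.sum_sub_distrib]
    apply Finset.sum_congr rfl
    intro ω _
    by_cases h : A ω <;> by_cases h' : B ω <;> simp [h, h']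
  rw [Pr_not, Pr_not, Pr_not] at h2
  nlinarith

lemma harris_dec_forall (hp0 : 0 ≤ p) (hp1 : p ≤ 1) {α : Type*} (s : Finset α)
    (A : α → (ι → Bool) → Prop) (hA : ∀ a, Dec (A a)) :
    ∏ a ∈ s, Pr p (A a) ≤ Pr p (fun ω => ∀ a ∈ s, A a ω) := by
  classical
  induction s using Finset.induction_on with
  | empty => simp [Pr_true]
  | insert a s ha ih =>
    rw [Finset.prod_insert ha]
    have h1 : Pr p (fun ω => ∀ b ∈ insert a s, A b ω) =
        Pr p (fun ω => A a ω ∧ ∀ b ∈ s, A b ω) := by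
      apply Pr_congr
      intro ω
      simp
    rw [h1]
    have hd : Dec (fun ω => ∀ b ∈ s, A b ω) := fun ω ω' hω h b hb => hA b ω ω' hω (h b hb)
    calc Pr p (A a) * ∏ b ∈ s, Pr p (A b)
        ≤ Pr p (A a) * Pr p (fun ω => ∀ b ∈ s, A b ω) :=
          mul_le_mul_of_nonneg_left ih (Pr_nonneg hp0 hp1 _)
      _ ≤ _ := harris_dec hp0 hp1 (hA a) hd

end Harris

end Pool.Agent.W_MP_6e7106_pr
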