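import Pool.Agent.W_MP_6e7106_pr.Dual
import Pool.Agent.W_MP_6e7106_pr.Prob

/-!
# Probability bounds on cylinders
-/

namespace Pool.Agent.W_MP_6e7106_pr

variable {m : ℕ}

/-- possible moves -/
abbrev St := Bool × Fin 3 × Fin 3

def nxt (e : Ed m) (s : St) : Ed m :=
  (s.1, e.2.1 + ((s.2.1 : ℕ) : ℤ) - 1, e.2.2 + ((s.2.2 : ℕ) : ZMod m) - 1)

lemma Near.exists_nxt {e e' : Ed m} (h : Near e e') : ∃ s, e' = nxt e s := by
  obtain ⟨⟨h1, h2⟩, h3⟩ := h
  obtain ⟨b, i, j⟩ := e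
  obtain ⟨b', i', j'⟩ := e'
  simp only at h1 h2 h3
  have hi : ∃ s : Fin 3, i' = i + ((s : ℕ) : ℤ) - 1 := by
    have : i' = i - 1 ∨ i' = i ∨ i' = i + 1 := by omega
    rcases this with h | h | h
    · exact ⟨0, by simp [h]⟩
    · exact ⟨1, by simp [h]⟩
    · exact ⟨2, by simp [h]; omega⟩
  have hj : ∃ s : Fin 3, j' = j + ((s : ℕ) : ZMod m) - 1 := by
    rcases h3 with h | h | h
    · exact ⟨1, by simp [h]⟩
    · exact ⟨2, by simp [h]; ring⟩
    · exact ⟨0, by simp [h]⟩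
  obtain ⟨s, hs⟩ := hi
  obtain ⟨s', hs'⟩ := hj
  exact ⟨(b', s, s'), by simp [nxt, hs, hs']⟩

def chainOf (e0 : Ed m) {L : ℕ} (σ : Fin L → St) : ℕ → Ed m
  | 0 => e0
  | t + 1 => if h : t < L then nxt (chainOf e0 σ t) (σ ⟨t, h⟩) else chainOf e0 σ t

lemma exists_chainOf (f : ℕ → Ed m) (L : ℕ) (hf : ∀ t, t < L → Near (f t) (f (t + 1))) :
    ∃ σ : Fin L → St, ∀ t, t ≤ L → chainOf (f 0) σ t = f t := by
  choose g hg using fun t : Fin L => (hf t.1 t.2).exists_nxt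
  refine ⟨g, ?_⟩
  intro t
  induction t with
  | zero => intro _; rfl
  | succ t ih =>
    intro ht
    have ht' : t < L := ht
    rw [chainOf, dif_pos ht', ih ht'.le]
    exact (hg ⟨t, ht'⟩).symm

/-- index set of the edges of the discrete torus -/
abbrev Ix (N m : ℕ) := Bool × ZMod N × ZMod m

/-- periodic lift of a torus configuration to the cylinder -/
def lift {N : ℕ} (ω : Ix N m → Bool) : Ed m → Bool := fun e => ω (e.1, (e.2.1 : ZMod N), e.2.2)

lemma lift_mono {N : ℕ} {ω ω' : Ix N m → Bool} (h : ω ≤ ω') : lift ω ≤ lift ω' :=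
  fun _ => h _

/-- probability of the lifted event on the torus -/
noncomputable def PN (N : ℕ) [NeZero N] (m : ℕ) [NeZero m] (p : ℝ)
    (A : (Ed m → Bool) → Prop) : ℝ :=
  Pr p (fun ω : Ix N m → Bool => A (lift ω))

lemma cast_inj {N : ℕ} {a b i i' : ℤ} (hab : b - a < N) (hi : a ≤ i) (hi' : i ≤ b)
    (hj : a ≤ i') (hj' : i' ≤ b) (h : (i : ZMod N) = (i' : ZMod N)) : i = i' := by
  rw [ZMod.intCast_eq_intCast_iff_dvd_sub] at h
  obtain ⟨c, hc⟩ := h
  have hN : (0 : ℤ) ≤ N := Int.natCast_nonneg N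
  rcases eq_or_lt_of_le hN with hN | hN
  · rw [← hN] at hc; omega
  · have hc0 : c = 0 := by
      by_contra hne
      rcases lt_or_gt_of_ne hne with hneg | hpos
      · have : (N : ℤ) * c ≤ -(N : ℤ) := by nlinarith
        omega
      · have : (N : ℤ) ≤ (N : ℤ) * c := by nlinarith
        omega
    rw [hc0] at hc
    omega

/-- the event that there is a closed self-avoiding chain of `L+1` edges in the slab -/
def ChainEv (a b : ℤ) (e0 : Ed m) (L : ℕ) (η : Ed m → Bool) : Prop :=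
  ∃ f : ℕ → Ed m, f 0 = e0 ∧ Set.InjOn f {t | t ≤ L} ∧
    (∀ t, t ≤ L → a ≤ (f t).2.1 ∧ (f t).2.1 ≤ b ∧ η (f t) = false) ∧
    (∀ t, t < L → Near (f t) (f (t + 1)))

lemma ChainEv.shorten {a b : ℤ} {e0 : Ed m} {L L' : ℕ} {η : Ed m → Bool}
    (h : ChainEv a b e0 L η) (hL : L' ≤ L) : ChainEv a b e0 L' η := by
  obtain ⟨f, h0, h1, h2, h3⟩ := h
  refine ⟨f, h0, ?_, fun t ht => h2 t (ht.trans hL), fun t ht => h3 t (by omega)⟩
  intro x hx y hy hxy
  have hx' : x ≤ L' := hx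
  have hy' : y ≤ L' := hy
  exact h1 (show x ≤ L by omega) (show y ≤ L by omega) hxy

lemma PN_nonneg {N : ℕ} [NeZero N] [NeZero m] {p : ℝ} (hp0 : 0 ≤ p) (hp1 : p ≤ 1)
    (A : (Ed m → Bool) → Prop) : 0 ≤ PN N m p A := Pr_nonneg hp0 hp1 _

lemma PN_le_one {N : ℕ} [NeZero N] [NeZero m] {p : ℝ} (hp0 : 0 ≤ p) (hp1 : p ≤ 1)
    (A : (Ed m → Bool) → Prop) : PN N m p A ≤ 1 := Pr_le_one hp0 hp1 _

lemma PN_mono {N : ℕ} [NeZero N] [NeZero m] {p : ℝ} (hp0 : 0 ≤ p) (hp1 : p ≤ 1)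
    {A B : (Ed m → Bool) → Prop} (h : ∀ η, A η → B η) : PN N m p A ≤ PN N m p B :=
  Pr_mono hp0 hp1 fun _ => h _

lemma PN_not {N : ℕ} [NeZero N] [NeZero m] {p : ℝ} (A : (Ed m → Bool) → Prop) :
    PN N m p (fun η => ¬ A η) = 1 - PN N m p A := Pr_not _

/-- one fixed chain -/
lemma PN_fixed_chain {N : ℕ} [NeZero N] [NeZero m] {p : ℝ} (hp0 : 0 ≤ p) (hp1 : p ≤ 1)
    {a b : ℤ} (hab : b - a < N) (g : ℕ → Ed m) (L : ℕ) :
    PN N m p (fun η => Set.InjOn g {t | t ≤ L} ∧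
      (∀ t, t ≤ L → a ≤ (g t).2.1 ∧ (g t).2.1 ≤ b ∧ η (g t) = false)) ≤ (1 - p) ^ (L + 1) := by
  classical
  by_cases hdet : Set.InjOn g {t | t ≤ L} ∧ (∀ t, t ≤ L → a ≤ (g t).2.1 ∧ (g t).2.1 ≤ b)
  · obtain ⟨hinj, hslab⟩ := hdet
    let h : ℕ → Ix N m := fun t => ((g t).1, ((g t).2.1 : ZMod N), (g t).2.2)
    let s : Finset (Ix N m) := (Finset.range (L + 1)).image h
    have hs : s.card = L + 1 := by
      rw [Finset.card_image_of_injOn, Finset.card_range]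
      intro x hx y hy hxy
      have hx' : x ≤ L := by simpa [Nat.lt_succ_iff] using hx
      have hy' : y ≤ L := by simpa [Nat.lt_succ_iff] using hy
      apply hinj hx' hy'
      simp only [h, Prod.mk.injEq] at hxy
      obtain ⟨e1, e2, e3⟩ := hxy
      have e2' := cast_inj hab (hslab x hx').1 (hslab x hx').2 (hslab y hy').1 (hslab y hy').2 e2
      exact Prod.ext e1 (Prod.ext e2' e3)
    rw [← hs, ← Pr_forall_eq_false]
    apply Pr_mono hp0 hp1
    rintro ω ⟨_, h2⟩ i hi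
    obtain ⟨t, ht, rfl⟩ := Finset.mem_image.mp hi
    have ht' : t ≤ L := by simpa [Nat.lt_succ_iff] using ht
    exact (h2 t ht').2.2
  · have h0 : PN N m p (fun η => Set.InjOn g {t | t ≤ L} ∧
      (∀ t, t ≤ L → a ≤ (g t).2.1 ∧ (g t).2.1 ≤ b ∧ η (g t) = false)) ≤
        PN N m p (fun _ => False) := by
      apply PN_mono hp0 hp1
      rintro η ⟨h1, h2⟩
      exact hdet ⟨h1, fun t ht => ⟨(h2 t ht).1, (h2 t ht).2.1⟩⟩
    have h1 : PN N m p (fun _ => False) = 0 := by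
      unfold PN Pr
      simp
    rw [h1] at h0
    refine h0.trans (pow_nonneg (by linarith) _)

lemma PN_chain {N : ℕ} [NeZero N] [NeZero m] {p : ℝ} (hp0 : 0 ≤ p) (hp1 : p ≤ 1)
    {a b : ℤ} (hab : b - a < N) (e0 : Ed m) (L : ℕ) :
    PN N m p (ChainEv a b e0 L) ≤ 18 ^ L * (1 - p) ^ (L + 1) := by
  classical
  calc PN N m p (ChainEv a b e0 L)
      ≤ Pr p (fun ω : Ix N m → Bool => ∃ σ ∈ (Finset.univ : Finset (Fin L → St)),
          (fun (σ : Fin L → St) (ω : Ix N m → Bool) => Set.InjOn (chainOf e0 σ) {t | t ≤ L} ∧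
          (∀ t, t ≤ L → a ≤ (chainOf e0 σ t).2.1 ∧ (chainOf e0 σ t).2.1 ≤ b ∧
            lift ω (chainOf e0 σ t) = false)) σ ω) := by
        apply Pr_mono hp0 hp1
        rintro ω ⟨f, hf0, h1, h2, h3⟩
        obtain ⟨σ, hσ⟩ := exists_chainOf f L h3
        rw [hf0] at hσ
        refine ⟨σ, Finset.mem_univ _, ?_, ?_⟩
        · intro x hx y hy hxy
          rw [hσ x hx, hσ y hy] at hxy
          exact h1 hx hy hxy
        · intro t ht
          rw [hσ t ht]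
          exact h2 t ht
    _ ≤ ∑ σ ∈ (Finset.univ : Finset (Fin L → St)), Pr p (fun (ω : Ix N m → Bool) =>
          Set.InjOn (chainOf e0 σ) {t | t ≤ L} ∧
          (∀ t, t ≤ L → a ≤ (chainOf e0 σ t).2.1 ∧ (chainOf e0 σ t).2.1 ≤ b ∧
            lift ω (chainOf e0 σ t) = false)) := Pr_exists_le hp0 hp1 _ _
    _ ≤ ∑ σ ∈ (Finset.univ : Finset (Fin L → St)), (1 - p) ^ (L + 1) := by
        apply Finset.sum_le_sum
        intro σ _
        exact PN_fixed_chain hp0 hp1 hab (chainOf e0 σ) L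
    _ = 18 ^ L * (1 - p) ^ (L + 1) := by
        rw [Finset.sum_const, Finset.card_univ, nsmul_eq_mul]
        congr 1
        rw [Fintype.card_fun, Fintype.card_fin]
        have : Fintype.card St = 18 := by decide
        rw [this]
        push_cast
        rfl

/-! ### Crossing -/

lemma zmod2_ne_of_add {x y : ZMod 2} (h : x + y ≠ 0) : x ≠ y := by
  revert h; revert x y; decide

lemma not_cross_chain [NeZero m] {B : ℕ} (hB : 0 < B) {η : Ed m → Bool}
    (h : ¬ Cross 0 (B : ℤ) η) :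
    ∃ k : ℕ, k < B ∧ ChainEv 0 (B : ℤ) (true, (k : ℤ), 0) (m / 2) η := by
  classical
  let u : Vx m → ZMod 2 := fun x =>
    if x.1 ≤ 0 ∨ ∃ z : Vx m, z.1 = 0 ∧ Conn η 0 B z x then 1 else 0
  have hu1 : ∀ x : Vx m, x.1 ≤ 0 → u x = 1 := fun x hx => if_pos (Or.inl hx)
  have hR : ∀ x : Vx m, (B : ℤ) ≤ x.1 → u x = 0 := by
    intro x hx
    apply if_neg
    rintro (h1 | ⟨z, hz, hz'⟩)
    · omega
    · obtain ⟨y, hy, hy'⟩ := hz'.hit_right (b := (B : ℤ)) (by omega) hx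
      exact h ⟨z, y, hz, hy, hy'⟩
  have hL : ∀ x y : Vx m, x.1 ≤ -((0 : ℕ) : ℤ) → y.1 ≤ -((0 : ℕ) : ℤ) → u x = u y := by
    intro x y hx hy
    rw [hu1 x (by simpa using hx), hu1 y (by simpa using hy)]
  have hbd : ∀ e : Ed m, bd u e ≠ 0 → 0 ≤ e.2.1 ∧ e.2.1 ≤ B ∧ η e = false := by
    intro e he
    have hne := zmod2_ne_of_add he
    have hlow : 0 ≤ e.2.1 := by
      by_contra hlt
      push Not at hlt
      apply hne
      rw [hu1 (hd e) (by simp only [hd]; omega), hu1 (tl e)]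
      rcases e with ⟨_ | _, i, j⟩
      · simp [tl] at hlt ⊢; omega
      · simp [tl] at hlt ⊢; omega
    have hhigh : e.2.1 < B := by
      by_contra hlt
      push Not at hlt
      apply hne
      rw [hR (hd e) (by simp only [hd]; omega), hR (tl e)]
      rcases e with ⟨_ | _, i, j⟩
      · simp [tl] at hlt ⊢; omega
      · simp [tl] at hlt ⊢; omega
    refine ⟨hlow, hhigh.le, ?_⟩
    by_contra hopen
    have hopen' : η e = true := by simpa using hopen
    apply hne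
    have htl : 0 ≤ (tl e).1 ∧ (tl e).1 ≤ B := by
      rcases e with ⟨_ | _, i, j⟩
      · simp [tl] at hlow hhigh ⊢; omega
      · simp [tl] at hlow hhigh ⊢; omega
    have hhd : 0 ≤ (hd e).1 ∧ (hd e).1 ≤ B := ⟨hlow, hhigh.le⟩
    have hstep : Step η 0 B (hd e) (tl e) :=
      ⟨hhd.1, hhd.2, htl.1, htl.2, e, hopen', Or.inl ⟨rfl, rfl⟩⟩
    -- `u` is constant along open steps of the slab
    have hu : ∀ x y : Vx m, Step η 0 B x y → u x = 1 → u y = 1 := by
      intro x y hxy hx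
      apply if_pos
      right
      by_contra hcon
      have hx' : x.1 ≤ 0 ∨ ∃ z : Vx m, z.1 = 0 ∧ Conn η 0 B z x := by
        by_contra h2
        simp only [u] at hx
        rw [if_neg h2] at hx
        exact absurd hx (by decide)
      rcases hx' with hx' | ⟨z, hz, hz'⟩
      · exact hcon ⟨x, le_antisymm hx' hxy.1, Relation.ReflTransGen.single hxy⟩
      · exact hcon ⟨z, hz, Relation.ReflTransGen.tail hz' hxy⟩
    by_cases h1 : u (hd e) = 1
    · rw [h1, hu _ _ hstep h1]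
    · by_cases h2 : u (tl e) = 1
      · exact absurd (hu _ _ hstep.symm h2) h1
      · have h01 : ∀ x : ZMod 2, x ≠ 1 → x = 0 := by decide
        rw [h01 _ h1, h01 _ h2]
  obtain ⟨k, hk, L, hLalt, f, hf0, hf1, hf2, hf3⟩ :=
    exists_chain u 0 B (hu1 _ le_rfl) hL hR
  have hLm : L = m / 2 := by
    rcases hLalt with hL' | ⟨_, i, hi, hi'⟩
    · exact hL'
    · exact absurd (hbd _ hi').1 (by simpa using hi)
  rw [← hLm]
  exact ⟨k, hk, f, hf0, hf1, fun t ht => hbd _ (hf2 t ht), hf3⟩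

/-- the origin is connected to one of the columns `±R` inside the slab `-R..R` -/
def Far (R : ℤ) (η : Ed m → Bool) : Prop :=
  ∃ y : Vx m, (y.1 = R ∨ y.1 = -R) ∧ Conn η (-R) R (0, 0) y

lemma not_far_chain [NeZero m] {R : ℕ} (hR0 : 0 < R) {η : Ed m → Bool}
    (h : ¬ Far (R : ℤ) η) :
    ∃ k : ℕ, k < R ∧ ChainEv (-(R : ℤ)) (R : ℤ) (true, (k : ℤ), 0) (min (k + 1) (m / 2)) η := by
  classical
  let u : Vx m → ZMod 2 := fun x => if Conn η (-(R : ℤ)) R (0, 0) x then 1 else 0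
  have hR : ∀ x : Vx m, (R : ℤ) ≤ x.1 → u x = 0 := by
    intro x hx
    apply if_neg
    intro hz'
    obtain ⟨y, hy, hy'⟩ := hz'.hit_right (b := (R : ℤ)) (by simp) hx
    exact h ⟨y, Or.inl hy, hy'⟩
  have hL0 : ∀ x : Vx m, x.1 ≤ -(R : ℤ) → u x = 0 := by
    intro x hx
    apply if_neg
    intro hz'
    obtain ⟨y, hy, hy'⟩ := hz'.hit_left' (b := -(R : ℤ)) (by simp) hx
    exact h ⟨y, Or.inr hy, hy'⟩
  have hL : ∀ x y : Vx m, x.1 ≤ -(R : ℤ) → y.1 ≤ -(R : ℤ) → u x = u y := by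
    intro x y hx hy
    rw [hL0 x hx, hL0 y hy]
  have hbd : ∀ e : Ed m, bd u e ≠ 0 → -(R : ℤ) ≤ e.2.1 ∧ e.2.1 ≤ R ∧ η e = false := by
    intro e he
    have hne := zmod2_ne_of_add he
    have hlow : -(R : ℤ) ≤ e.2.1 := by
      by_contra hlt
      push Not at hlt
      apply hne
      rw [hL0 (hd e) (by simp only [hd]; omega), hL0 (tl e)]
      rcases e with ⟨_ | _, i, j⟩
      · simp [tl] at hlt ⊢; omega
      · simp [tl] at hlt ⊢; omega
    have hhigh : e.2.1 < R := by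
      by_contra hlt
      push Not at hlt
      apply hne
      rw [hR (hd e) (by simp only [hd]; omega), hR (tl e)]
      rcases e with ⟨_ | _, i, j⟩
      · simp [tl] at hlt ⊢; omega
      · simp [tl] at hlt ⊢; omega
    refine ⟨hlow, hhigh.le, ?_⟩
    by_contra hopen
    have hopen' : η e = true := by simpa using hopen
    apply hne
    have htl : -(R : ℤ) ≤ (tl e).1 ∧ (tl e).1 ≤ R := by
      rcases e with ⟨_ | _, i, j⟩
      · simp [tl] at hlow hhigh ⊢; omega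
      · simp [tl] at hlow hhigh ⊢; omega
    have hhd : -(R : ℤ) ≤ (hd e).1 ∧ (hd e).1 ≤ R := ⟨hlow, hhigh.le⟩
    have hstep : Step η (-(R : ℤ)) R (hd e) (tl e) :=
      ⟨hhd.1, hhd.2, htl.1, htl.2, e, hopen', Or.inl ⟨rfl, rfl⟩⟩
    have hu : ∀ x y : Vx m, Step η (-(R : ℤ)) R x y → u x = 1 → u y = 1 := by
      intro x y hxy hx
      apply if_pos
      have hx' : Conn η (-(R : ℤ)) R (0, 0) x := by
        by_contra h2
        simp only [u] at hx
        rw [if_neg h2] at hx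
        exact absurd hx (by decide)
      exact Relation.ReflTransGen.tail hx' hxy
    by_cases h1 : u (hd e) = 1
    · rw [h1, hu _ _ hstep h1]
    · by_cases h2 : u (tl e) = 1
      · exact absurd (hu _ _ hstep.symm h2) h1
      · have h01 : ∀ x : ZMod 2, x ≠ 1 → x = 0 := by decide
        rw [h01 _ h1, h01 _ h2]
  have hu0 : u (0, 0) = 1 := if_pos Relation.ReflTransGen.refl
  obtain ⟨k, hk, L, hLalt, f, hf0, hf1, hf2, hf3⟩ := exists_chain u R R hu0 hL hR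
  have hLm : min (k + 1) (m / 2) ≤ L := by
    rcases hLalt with hL' | ⟨hL', _⟩
    · rw [hL']; exact min_le_right _ _
    · rw [hL']
  refine ⟨k, hk, ChainEv.shorten ?_ hLm⟩
  exact ⟨f, hf0, hf1, fun t ht => hbd _ (hf2 t ht), hf3⟩

lemma PN_not_cross {N : ℕ} [NeZero N] [NeZero m] {p : ℝ} (hp0 : 0 ≤ p) (hp1 : p ≤ 1)
    {B : ℕ} (hB : 0 < B) (hBN : B < N) :
    PN N m p (fun η => ¬ Cross 0 (B : ℤ) η) ≤ B * (18 ^ (m / 2) * (1 - p) ^ (m / 2 + 1)) := by
  calc PN N m p (fun η => ¬ Cross 0 (B : ℤ) η)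
      ≤ Pr p (fun ω : Ix N m → Bool => ∃ k ∈ Finset.range B,
          (fun (k : ℕ) (ω : Ix N m → Bool) =>
            ChainEv 0 (B : ℤ) (true, (k : ℤ), 0) (m / 2) (lift ω)) k ω) := by
        apply Pr_mono hp0 hp1
        intro ω hω
        obtain ⟨k, hk, hk'⟩ := not_cross_chain hB hω
        exact ⟨k, Finset.mem_range.mpr hk, hk'⟩
    _ ≤ ∑ k ∈ Finset.range B, Pr p (fun (ω : Ix N m → Bool) =>
            ChainEv 0 (B : ℤ) (true, (k : ℤ), 0) (m / 2) (lift ω)) := Pr_exists_le hp0 hp1 _ _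
    _ ≤ ∑ k ∈ Finset.range B, 18 ^ (m / 2) * (1 - p) ^ (m / 2 + 1) := by
        apply Finset.sum_le_sum
        intro k _
        exact PN_chain hp0 hp1 (by omega) _ _
    _ = _ := by simp

lemma PN_not_far {N : ℕ} [NeZero N] [NeZero m] {p : ℝ} (hp0 : 0 ≤ p) (hp1 : p ≤ 1)
    {R : ℕ} (hR : 0 < R) (hRN : 2 * R < N) :
    PN N m p (fun η => ¬ Far (R : ℤ) η) ≤
      ∑ k ∈ Finset.range R, 18 ^ (min (k + 1) (m / 2)) * (1 - p) ^ (min (k + 1) (m / 2) + 1) := by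
  calc PN N m p (fun η => ¬ Far (R : ℤ) η)
      ≤ Pr p (fun ω : Ix N m → Bool => ∃ k ∈ Finset.range R,
          (fun (k : ℕ) (ω : Ix N m → Bool) =>
            ChainEv (-(R : ℤ)) (R : ℤ) (true, (k : ℤ), 0) (min (k + 1) (m / 2)) (lift ω)) k ω) := by
        apply Pr_mono hp0 hp1
        intro ω hω
        obtain ⟨k, hk, hk'⟩ := not_far_chain hR hω
        exact ⟨k, Finset.mem_range.mpr hk, hk'⟩
    _ ≤ ∑ k ∈ Finset.range R, Pr p (fun (ω : Ix N m → Bool) =>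
            ChainEv (-(R : ℤ)) (R : ℤ) (true, (k : ℤ), 0) (min (k + 1) (m / 2)) (lift ω)) :=
          Pr_exists_le hp0 hp1 _ _
    _ ≤ _ := by
        apply Finset.sum_le_sum
        intro k _
        exact PN_chain hp0 hp1 (by omega) _ _

end Pool.Agent.W_MP_6e7106_pr
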