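import Mathlib

/-!
# Percolation configurations on the infinite cylinder `ℤ × ℤ/m`: deterministic facts
-/

namespace Pool.Agent.W_MP_6e7106_pr

/-- vertices of the cylinder -/
abbrev Vx (m : ℕ) := ℤ × ZMod m

/-- edges of the cylinder: `(true, i, j)` joins `(i,j)` to `(i+1,j)`,
`(false, i, j)` joins `(i,j)` to `(i,j+1)` -/
abbrev Ed (m : ℕ) := Bool × ℤ × ZMod m

variable {m : ℕ}

def hd (e : Ed m) : Vx m := e.2

def tl (e : Ed m) : Vx m := if e.1 then (e.2.1 + 1, e.2.2) else (e.2.1, e.2.2 + 1)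

/-- one open step inside the slab of columns `a..b` -/
def Step (ω : Ed m → Bool) (a b : ℤ) (x y : Vx m) : Prop :=
  a ≤ x.1 ∧ x.1 ≤ b ∧ a ≤ y.1 ∧ y.1 ≤ b ∧
    ∃ e : Ed m, ω e = true ∧ ((x = hd e ∧ y = tl e) ∨ (x = tl e ∧ y = hd e))

/-- connected by an open path inside the slab -/
def Conn (ω : Ed m → Bool) (a b : ℤ) (x y : Vx m) : Prop :=
  Relation.ReflTransGen (Step ω a b) x y

lemma Step.symm {ω : Ed m → Bool} {a b : ℤ} {x y : Vx m} (h : Step ω a b x y) :
    Step ω a b y x := by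
  obtain ⟨h1, h2, h3, h4, e, he, h5⟩ := h
  refine ⟨h3, h4, h1, h2, e, he, ?_⟩
  rcases h5 with ⟨h6, h7⟩ | ⟨h6, h7⟩
  · exact Or.inr ⟨h7, h6⟩
  · exact Or.inl ⟨h7, h6⟩

lemma Conn.symm {ω : Ed m → Bool} {a b : ℤ} {x y : Vx m} (h : Conn ω a b x y) :
    Conn ω a b y x := by
  induction h with
  | refl => exact Relation.ReflTransGen.refl
  | tail _ h2 ih => exact Relation.ReflTransGen.head h2.symm ih

lemma Conn.trans {ω : Ed m → Bool} {a b : ℤ} {x y z : Vx m} (h : Conn ω a b x y)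
    (h' : Conn ω a b y z) : Conn ω a b x z := Relation.ReflTransGen.trans h h'

lemma Step.mono {ω ω' : Ed m → Bool} {a b a' b' : ℤ} {x y : Vx m} (hω : ω ≤ ω')
    (ha : a' ≤ a) (hb : b ≤ b') (h : Step ω a b x y) : Step ω' a' b' x y := by
  obtain ⟨h1, h2, h3, h4, e, he, h5⟩ := h
  refine ⟨ha.trans h1, h2.trans hb, ha.trans h3, h4.trans hb, e, ?_, h5⟩
  have := hω e
  rw [he] at this
  exact top_le_iff.mp this

lemma Conn.mono {ω ω' : Ed m → Bool} {a b a' b' : ℤ} {x y : Vx m} (hω : ω ≤ ω')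
    (ha : a' ≤ a) (hb : b ≤ b') (h : Conn ω a b x y) : Conn ω' a' b' x y := by
  induction h with
  | refl => exact Relation.ReflTransGen.refl
  | tail _ h2 ih => exact Relation.ReflTransGen.tail ih (h2.mono hω ha hb)

lemma Step.col {ω : Ed m → Bool} {a b : ℤ} {x y : Vx m} (h : Step ω a b x y) :
    y.1 ≤ x.1 + 1 ∧ x.1 ≤ y.1 + 1 := by
  obtain ⟨h1, h2, h3, h4, e, he, h5⟩ := h
  rcases h5 with ⟨rfl, rfl⟩ | ⟨rfl, rfl⟩ <;> rcases e with ⟨_ | _, i, j⟩ <;> simp [hd, tl] <;>
    omega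

/-- first hitting of column `b` -/
lemma Conn.hit_right {ω : Ed m → Bool} {a b c : ℤ} {x y : Vx m} (h : Conn ω a c x y)
    (hx : x.1 ≤ b) (hy : b ≤ y.1) : ∃ z : Vx m, z.1 = b ∧ Conn ω a b x z := by
  induction h using Relation.ReflTransGen.head_induction_on with
  | refl => exact ⟨y, le_antisymm hx hy, Relation.ReflTransGen.refl⟩
  | head h1 h2 ih =>
    rename_i x x'
    rcases eq_or_lt_of_le hx with hx' | hx'
    · exact ⟨x, hx', Relation.ReflTransGen.refl⟩
    · have h3 := h1.col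
      obtain ⟨z, hz, hz'⟩ := ih (by omega)
      refine ⟨z, hz, Relation.ReflTransGen.head ?_ hz'⟩
      obtain ⟨g1, g2, g3, g4, g5⟩ := h1
      exact ⟨g1, hx, g3, by omega, g5⟩

/-- last exit from column `b` -/
lemma Conn.hit_left {ω : Ed m → Bool} {a b c : ℤ} {x y : Vx m} (h : Conn ω a c x y)
    (hx : x.1 ≤ b) (hy : b ≤ y.1) : ∃ z : Vx m, z.1 = b ∧ Conn ω b c z y := by
  induction h with
  | refl => exact ⟨x, le_antisymm hx hy, Relation.ReflTransGen.refl⟩
  | tail h1 h2 ih =>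
    rename_i y' y
    rcases eq_or_lt_of_le hy with hy' | hy'
    · exact ⟨y, hy'.symm, Relation.ReflTransGen.refl⟩
    · have h3 := h2.col
      obtain ⟨z, hz, hz'⟩ := ih (by omega)
      refine ⟨z, hz, Relation.ReflTransGen.tail hz' ?_⟩
      obtain ⟨g1, g2, g3, g4, g5⟩ := h2
      exact ⟨by omega, g2, hy, g4, g5⟩

/-- mirror image of `hit_left`: first hitting of column `b` from the right -/
lemma Conn.hit_left' {ω : Ed m → Bool} {a b c : ℤ} {x y : Vx m} (h : Conn ω a c x y)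
    (hx : b ≤ x.1) (hy : y.1 ≤ b) : ∃ z : Vx m, z.1 = b ∧ Conn ω b c x z := by
  obtain ⟨z, hz, hz'⟩ := h.symm.hit_left hy hx
  exact ⟨z, hz, hz'.symm⟩

/-- the column `c` is fully open (all its vertical edges) -/
def OpenCol (ω : Ed m → Bool) (c : ℤ) : Prop := ∀ j, ω (false, c, j) = true

lemma OpenCol.conn [NeZero m] {ω : Ed m → Bool} {c : ℤ} (h : OpenCol ω c) (j j' : ZMod m) :
    Conn ω c c (c, j) (c, j') := by
  have key : ∀ k : ℕ, Conn ω c c (c, j) (c, j + k) := by
    intro k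
    induction k with
    | zero =>
      rw [Nat.cast_zero, add_zero]
      exact Relation.ReflTransGen.refl
    | succ k ih =>
      refine Relation.ReflTransGen.tail ih ⟨le_rfl, le_rfl, le_rfl, le_rfl,
        (false, c, j + k), h _, Or.inl ⟨rfl, ?_⟩⟩
      simp [tl, add_assoc]
  have := key (j' - j).val
  rwa [ZMod.natCast_zmod_val, add_sub_cancel] at this

/-- the slab `a..b` is crossed by an open path -/
def Cross (a b : ℤ) (ω : Ed m → Bool) : Prop :=
  ∃ x y : Vx m, x.1 = a ∧ y.1 = b ∧ Conn ω a b x y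

lemma Cross.mono {a b : ℤ} {ω ω' : Ed m → Bool} (hω : ω ≤ ω') (h : Cross a b ω) :
    Cross a b ω' := by
  obtain ⟨x, y, hx, hy, h⟩ := h
  exact ⟨x, y, hx, hy, h.mono hω le_rfl le_rfl⟩

lemma Cross.shorten {a b b' : ℤ} {ω : Ed m → Bool} (hab : a ≤ b) (hb : b ≤ b')
    (h : Cross a b' ω) : Cross a b ω := by
  obtain ⟨x, y, hx, hy, h⟩ := h
  obtain ⟨z, hz, hz'⟩ := h.hit_right (b := b) (by omega) (by omega)
  exact ⟨x, z, hx, hz, hz'⟩

lemma Cross.glue [NeZero m] {a b c d e : ℤ} {ω : Ed m → Bool} (h1 : Cross a b ω)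
    (h2 : Cross c d ω) (hac : a ≤ c) (hce : c ≤ e) (heb : e ≤ b) (hbd : b ≤ d)
    (h3 : OpenCol ω e) : Cross a d ω := by
  obtain ⟨x, y, hx, hy, h⟩ := h1
  obtain ⟨x', y', hx', hy', h'⟩ := h2
  obtain ⟨z, hz, hz'⟩ := h.hit_right (b := e) (by omega) (by omega)
  obtain ⟨w, hw, hw'⟩ := h'.hit_left (b := e) (by omega) (by omega)
  refine ⟨x, y', hx, hy', ?_⟩
  have g1 : Conn ω a d x z := hz'.mono le_rfl le_rfl (by omega)
  have g3 : Conn ω a d w y' := hw'.mono le_rfl (by omega) le_rfl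
  have g2 : Conn ω a d z w := by
    have := (h3.conn z.2 w.2).mono (ω' := ω) (a' := a) (b' := d) le_rfl (by omega) (by omega)
    have hz2 : z = (e, z.2) := by rw [← hz]
    have hw2 : w = (e, w.2) := by rw [← hw]
    rw [hz2, hw2]
    exact this
  exact (g1.trans g2).trans g3

/-- translation of configurations -/
lemma Step.shift {ω η : Ed m → Bool} {a b s : ℤ} {t : ZMod m} {x y : Vx m}
    (hη : ∀ k i j, a ≤ i → i ≤ b → η (k, i, j) = ω (k, i + s, j + t))
    (h : Step η a b x y) : Step ω (a + s) (b + s) (x.1 + s, x.2 + t) (y.1 + s, y.2 + t) := by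
  obtain ⟨h1, h2, h3, h4, e, he, h5⟩ := h
  refine ⟨by simpa using h1, by simpa using h2, by simpa using h3, by simpa using h4,
    (e.1, e.2.1 + s, e.2.2 + t), ?_, ?_⟩
  · rw [← hη, ← he]
    · rcases h5 with ⟨rfl, rfl⟩ | ⟨rfl, rfl⟩
      · exact h1
      · exact h3
    · rcases h5 with ⟨rfl, rfl⟩ | ⟨rfl, rfl⟩
      · exact h2
      · exact h4
  · rcases e with ⟨_ | _, i, j⟩
    · rcases h5 with ⟨rfl, rfl⟩ | ⟨rfl, rfl⟩
      · left; simp [hd, tl]; ring
      · right; simp [hd, tl]; ring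
    · rcases h5 with ⟨rfl, rfl⟩ | ⟨rfl, rfl⟩
      · left; simp [hd, tl]; ring
      · right; simp [hd, tl]; ring

lemma Conn.shift {ω η : Ed m → Bool} {a b s : ℤ} {t : ZMod m} {x y : Vx m}
    (hη : ∀ k i j, a ≤ i → i ≤ b → η (k, i, j) = ω (k, i + s, j + t))
    (h : Conn η a b x y) : Conn ω (a + s) (b + s) (x.1 + s, x.2 + t) (y.1 + s, y.2 + t) := by
  induction h with
  | refl => exact Relation.ReflTransGen.refl
  | tail _ h2 ih => exact Relation.ReflTransGen.tail ih (h2.shift hη)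

lemma Cross.shift {ω η : Ed m → Bool} {a b s : ℤ}
    (hη : ∀ k i j, a ≤ i → i ≤ b → η (k, i, j) = ω (k, i + s, j))
    (h : Cross a b η) : Cross (a + s) (b + s) ω := by
  obtain ⟨x, y, hx, hy, h⟩ := h
  have := h.shift (s := s) (t := 0) (ω := ω) (fun k i j h1 h2 => by simpa using hη k i j h1 h2)
  exact ⟨_, _, by simp [hx], by simp [hy], this⟩

lemma Cross.shift_iff {ω η : Ed m → Bool} {a b s : ℤ}
    (hη : ∀ k i j, a ≤ i → i ≤ b → η (k, i, j) = ω (k, i + s, j)) :
    Cross a b η ↔ Cross (a + s) (b + s) ω := by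
  constructor
  · exact fun h => h.shift hη
  · intro h
    have := h.shift (s := -s) (ω := η) (fun k i j h1 h2 => by
      rw [hη k (i + -s) j (by omega) (by omega)]
      simp)
    simpa using this

/-- a crossed slab has, for each pair of consecutive columns, an open horizontal edge -/
lemma Cross.exists_open {a b i : ℤ} {ω : Ed m → Bool} (h : Cross a b ω) (hai : a ≤ i)
    (hib : i < b) : ∃ j, ω (true, i, j) = true := by
  obtain ⟨x, y, hx, hy, h⟩ := h
  by_contra hcon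
  push Not at hcon
  have key : ∀ z, Conn ω a b x z → z.1 ≤ i := by
    intro z hz
    induction hz with
    | refl => omega
    | tail h1 h2 ih =>
      rename_i y' z
      by_contra hlt
      push Not at hlt
      have h3 := h2.col
      have hy' : y'.1 = i := by omega
      have hy : z.1 = i + 1 := by omega
      obtain ⟨_, _, _, _, e, he, h5⟩ := h2
      rcases h5 with ⟨h6, h7⟩ | ⟨h6, h7⟩
      · rcases e with ⟨_ | _, i', j⟩
        · simp [h6, h7, hd, tl] at hy' hy
          omega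
        · rw [h6] at hy'
          simp only [hd] at hy'
          subst hy'
          exact hcon j he
      · rcases e with ⟨_ | _, i', j⟩
        · simp [h6, h7, hd, tl] at hy' hy
          omega
        · simp [h6, h7, hd, tl] at hy' hy
          omega
  have := key y h
  omega

end Pool.Agent.W_MP_6e7106_pr
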