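import Mathlib

/-!
# Bond percolation on finite graphs: the notions used in the statement
-/

namespace Pool.Agent.W_MP_6e7106_pr

open Classical in
/-- Bond percolation on the finite graph `G`: every edge of `G` is kept independently with
probability `p`. `percProb G p A` is the probability that the random spanning subgraph of kept
edges has the property `A`: the sum over all sets `S` of edges of `G` for which the graph with
edge set `S` satisfies `A` of `p ^ |S| * (1 - p) ^ (|E(G)| - |S|)`. -/
noncomputable def percProb {V : Type} [Fintype V] (G : SimpleGraph V) (p : ℝ)
    (A : SimpleGraph V → Prop) : ℝ :=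
  ∑ S ∈ G.edgeFinset.powerset,
    if A (SimpleGraph.fromEdgeSet (S : Set (Sym2 V))) then
      p ^ S.card * (1 - p) ^ (G.edgeFinset.card - S.card) else 0

/-- the automorphism group of `G` acts transitively on the vertices -/
def IsTransitive {V : Type} (G : SimpleGraph V) : Prop :=
  ∀ u v : V, ∃ φ : G ≃g G, φ u = v

/-- the component of `v` in `H` (the graph of kept edges) has diameter at least `diam(G)/2`,
the diameter being measured in the graph metric of `G` -/
def InLargeDiameterComponent {V : Type} (G H : SimpleGraph V) (v : V) : Prop :=
  ∃ x y : V, H.Reachable v x ∧ H.Reachable v y ∧ (G.diam : ℝ) / 2 ≤ (G.dist x y : ℝ)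

/-- some connected component of `H` has at least `s` vertices -/
def HasComponentOfSize {V : Type} (H : SimpleGraph V) (s : ℝ) : Prop :=
  ∃ c : H.ConnectedComponent, s ≤ (c.supp.ncard : ℝ)

end Pool.Agent.W_MP_6e7106_pr
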