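import Pool.Agent.W_MP_6e7106_pr.Cyl

/-!
# A parity argument replacing planar duality on the cylinder
-/

namespace Pool.Agent.W_MP_6e7106_pr

variable {m : ℕ}

/-- boundary indicator (mod 2) of the vertex set with indicator `u` -/
def bd (u : Vx m → ZMod 2) (e : Ed m) : ZMod 2 := u (hd e) + u (tl e)

/-- two edges with close coordinates -/
def Near (e e' : Ed m) : Prop :=
  (e'.2.1 ≤ e.2.1 + 1 ∧ e.2.1 ≤ e'.2.1 + 1) ∧
    (e'.2.2 = e.2.2 ∨ e'.2.2 = e.2.2 + 1 ∨ e.2.2 = e'.2.2 + 1)

lemma Near.symm {e e' : Ed m} (h : Near e e') : Near e' e := by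
  obtain ⟨⟨h1, h2⟩, h3⟩ := h
  refine ⟨⟨h2, h1⟩, ?_⟩
  rcases h3 with h3 | h3 | h3
  · exact Or.inl h3.symm
  · exact Or.inr (Or.inr h3)
  · exact Or.inr (Or.inl h3)

/-- the adjacency graph of boundary edges -/
def BG (u : Vx m → ZMod 2) : SimpleGraph (Ed m) where
  Adj e e' := e ≠ e' ∧ bd u e ≠ 0 ∧ bd u e' ≠ 0 ∧ Near e e'
  symm := ⟨fun _ _ h => ⟨h.1.symm, h.2.2.1, h.2.1, h.2.2.2.symm⟩⟩
  loopless := ⟨fun _ h => h.1 rfl⟩

open Classical in
/-- indicator of the boundary edges in a component -/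
noncomputable def ind (u : Vx m → ZMod 2) (C : (BG u).ConnectedComponent) (e : Ed m) : ZMod 2 :=
  if bd u e ≠ 0 ∧ (BG u).connectedComponentMk e = C then 1 else 0

lemma zmod2_ne_zero {x : ZMod 2} (h : x ≠ 0) : x = 1 := by
  revert h; revert x; decide

lemma zmod2_add_self (x : ZMod 2) : x + x = 0 := by
  revert x; decide

lemma comp_eq_of_near {u : Vx m → ZMod 2} {e e' : Ed m} (h : bd u e ≠ 0) (h' : bd u e' ≠ 0)
    (hn : Near e e') :
    (BG u).connectedComponentMk e = (BG u).connectedComponentMk e' := by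
  by_cases hee : e = e'
  · rw [hee]
  · apply SimpleGraph.ConnectedComponent.sound
    exact SimpleGraph.Adj.reachable ⟨hee, h, h', hn⟩

lemma face_relation (u : Vx m → ZMod 2) (C : (BG u).ConnectedComponent) (i : ℤ) (j : ZMod m) :
    ind u C (true, i, j) + ind u C (true, i, j + 1) =
      ind u C (false, i, j) + ind u C (false, i + 1, j) := by
  have hbd : bd u (true, i, j) + bd u (true, i, j + 1) =
      bd u (false, i, j) + bd u (false, i + 1, j) := by
    simp only [bd, hd, tl]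
    simp only [if_true, Bool.false_eq_true, if_false]
    ring_nf
  have near1 : Near (m := m) (true, i, j) (true, i, j + 1) := ⟨by simp, by simp⟩
  have near2 : Near (m := m) (true, i, j) (false, i, j) := ⟨by simp, by simp⟩
  have near3 : Near (m := m) (true, i, j) (false, i + 1, j) := ⟨by simp; omega, by simp⟩
  have near4 : Near (m := m) (true, i, j + 1) (false, i, j) := ⟨by simp, by simp⟩
  have near5 : Near (m := m) (true, i, j + 1) (false, i + 1, j) := ⟨by simp; omega, by simp⟩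
  have near6 : Near (m := m) (false, i, j) (false, i + 1, j) := ⟨by simp; omega, by simp⟩
  by_cases hex : ∃ e : Ed m, (e = (true, i, j) ∨ e = (true, i, j + 1) ∨ e = (false, i, j) ∨
      e = (false, i + 1, j)) ∧ bd u e ≠ 0 ∧ (BG u).connectedComponentMk e = C
  · obtain ⟨e, he, hb, hC⟩ := hex
    have key : ∀ e' : Ed m, Near e e' → ind u C e' = bd u e' := by
      intro e' hn
      unfold ind
      by_cases hb' : bd u e' = 0
      · simp [hb']
      · have := comp_eq_of_near hb hb' hn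
        rw [if_pos ⟨hb', by rw [← this, hC]⟩, zmod2_ne_zero hb']
    have selfn : ∀ e' : Ed m, Near e' e' := fun e' => ⟨⟨by omega, by omega⟩, Or.inl rfl⟩
    rcases he with rfl | rfl | rfl | rfl
    · rw [key _ (selfn _), key _ near1, key _ near2, key _ near3, hbd]
    · rw [key _ (selfn _), key _ near1.symm, key _ near4, key _ near5, hbd]
    · rw [key _ (selfn _), key _ near2.symm, key _ near4.symm, key _ near6, hbd]
    · rw [key _ (selfn _), key _ near3.symm, key _ near5.symm, key _ near6.symm, hbd]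
  · have key : ∀ e' : Ed m, (e' = (true, i, j) ∨ e' = (true, i, j + 1) ∨ e' = (false, i, j) ∨
      e' = (false, i + 1, j)) → ind u C e' = 0 := by
      intro e' he'
      unfold ind
      rw [if_neg]
      intro h
      exact hex ⟨e', he', h⟩
    rw [key _ (Or.inl rfl), key _ (Or.inr (Or.inl rfl)), key _ (Or.inr (Or.inr (Or.inl rfl))),
      key _ (Or.inr (Or.inr (Or.inr rfl)))]

lemma telescope (f : ℕ → ZMod 2) (n : ℕ) :
    ∑ k ∈ Finset.range n, (f k + f (k + 1)) = f 0 + f n := by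
  induction n with
  | zero => simp [zmod2_add_self]
  | succ n ih =>
    rw [Finset.sum_range_succ, ih]
    have := zmod2_add_self (f n)
    calc f 0 + f n + (f n + f (n + 1)) = f 0 + (f n + f n) + f (n + 1) := by ring
      _ = f 0 + f (n + 1) := by rw [this, add_zero]

/-- Row sums are independent of the row. -/
lemma row_sum_eq (u : Vx m → ZMod 2) (C : (BG u).ConnectedComponent) (A B : ℕ)
    (hL : ∀ x y : Vx m, x.1 ≤ -(A : ℤ) → y.1 ≤ -(A : ℤ) → u x = u y)
    (hR : ∀ x : Vx m, (B : ℤ) ≤ x.1 → u x = 0) (j : ZMod m) :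
    ∑ k ∈ Finset.range (A + B), ind u C (true, (k : ℤ) - A, j) =
      ∑ k ∈ Finset.range (A + B), ind u C (true, (k : ℤ) - A, j + 1) := by
  have h1 : ∑ k ∈ Finset.range (A + B), (ind u C (true, (k : ℤ) - A, j) +
      ind u C (true, (k : ℤ) - A, j + 1)) = 0 := by
    have h2 : ∀ k ∈ Finset.range (A + B), (ind u C (true, (k : ℤ) - A, j) +
      ind u C (true, (k : ℤ) - A, j + 1)) = (fun k : ℕ => ind u C (false, (k : ℤ) - A, j)) k +
        (fun k : ℕ => ind u C (false, (k : ℤ) - A, j)) (k + 1) := by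
      intro k _
      rw [face_relation]
      simp only
      congr 3
      push_cast
      ring_nf
    rw [Finset.sum_congr rfl h2, telescope]
    have h3 : ind u C (false, ((0 : ℕ) : ℤ) - A, j) = 0 := by
      unfold ind
      rw [if_neg]
      rintro ⟨h, _⟩
      apply h
      simp only [bd, hd, tl, Bool.false_eq_true, if_false]
      rw [hL (((0 : ℕ) : ℤ) - A, j) (((0 : ℕ) : ℤ) - A, j + 1) (by simp) (by simp)]
      exact zmod2_add_self _
    have h4 : ind u C (false, ((A + B : ℕ) : ℤ) - A, j) = 0 := by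
      unfold ind
      rw [if_neg]
      rintro ⟨h, _⟩
      apply h
      simp only [bd, hd, tl, Bool.false_eq_true, if_false]
      rw [hR _ (by push_cast; simp), hR _ (by push_cast; simp)]
      simp
    rw [h3, h4, add_zero]
  rw [Finset.sum_add_distrib] at h1
  have h5 := zmod2_add_self (∑ k ∈ Finset.range (A + B), ind u C (true, (k : ℤ) - A, j + 1))
  have : ∀ x y : ZMod 2, x + y = 0 → x = y := by decide
  exact this _ _ h1

lemma row_sum_eq_all [NeZero m] (u : Vx m → ZMod 2) (C : (BG u).ConnectedComponent) (A B : ℕ)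
    (hL : ∀ x y : Vx m, x.1 ≤ -(A : ℤ) → y.1 ≤ -(A : ℤ) → u x = u y)
    (hR : ∀ x : Vx m, (B : ℤ) ≤ x.1 → u x = 0) (j : ZMod m) :
    ∑ k ∈ Finset.range (A + B), ind u C (true, (k : ℤ) - A, 0) =
      ∑ k ∈ Finset.range (A + B), ind u C (true, (k : ℤ) - A, j) := by
  have key : ∀ n : ℕ, ∑ k ∈ Finset.range (A + B), ind u C (true, (k : ℤ) - A, 0) =
      ∑ k ∈ Finset.range (A + B), ind u C (true, (k : ℤ) - A, (n : ZMod m)) := by
    intro n
    induction n with
    | zero => simp
    | succ n ih =>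
      rw [ih, row_sum_eq u C A B hL hR]
      push_cast
      rfl
  have := key j.val
  rwa [ZMod.natCast_zmod_val] at this

/-- some component crosses the right ray of row `0` an odd number of times -/
lemma exists_odd_component (u : Vx m → ZMod 2) (B : ℕ) (h0 : u (0, 0) = 1)
    (hR : ∀ x : Vx m, (B : ℤ) ≤ x.1 → u x = 0) :
    ∃ C : (BG u).ConnectedComponent, ∑ k ∈ Finset.range B, ind u C (true, (k : ℤ), 0) = 1 := by
  classical
  by_contra hcon
  push Not at hcon
  have hcon' : ∀ C : (BG u).ConnectedComponent,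
      ∑ k ∈ Finset.range B, ind u C (true, (k : ℤ), 0) = 0 := by
    intro C
    by_contra h
    exact hcon C (zmod2_ne_zero h)
  have htot : ∑ k ∈ Finset.range B, bd u (true, (k : ℤ), 0) = 1 := by
    have h2 : ∀ k ∈ Finset.range B, bd u (true, (k : ℤ), 0) =
        (fun k : ℕ => u ((k : ℤ), 0)) k + (fun k : ℕ => u ((k : ℤ), 0)) (k + 1) := by
      intro k _
      simp [bd, hd, tl]
    rw [Finset.sum_congr rfl h2, telescope]
    rw [hR ((B : ℤ), 0) le_rfl]
    simp [h0]
  let comp : ℕ → (BG u).ConnectedComponent := fun k =>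
    (BG u).connectedComponentMk (true, (k : ℤ), 0)
  have h3 : ∑ k ∈ Finset.range B, bd u (true, (k : ℤ), 0) =
      ∑ C ∈ (Finset.range B).image comp, ∑ k ∈ Finset.range B, ind u C (true, (k : ℤ), 0) := by
    rw [Finset.sum_comm]
    apply Finset.sum_congr rfl
    intro k hk
    rw [Finset.sum_eq_single (comp k)]
    · unfold ind
      by_cases hb : bd u (true, (k : ℤ), 0) = 0
      · simp [hb]
      · rw [if_pos ⟨hb, rfl⟩, zmod2_ne_zero hb]
    · intro C _ hC
      unfold ind
      rw [if_neg]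
      rintro ⟨_, h⟩
      exact hC h.symm
    · intro h
      exact absurd (Finset.mem_image_of_mem comp hk) h
  rw [htot, Finset.sum_eq_zero (fun C _ => hcon' C)] at h3
  exact absurd h3 (by decide)

/-- The combinatorial heart: a component of boundary edges which starts on the right ray of
row `0` and reaches either the left ray of row `0` or the row `j`. -/
lemma exists_dual [NeZero m] (u : Vx m → ZMod 2) (A B : ℕ) (h0 : u (0, 0) = 1)
    (hL : ∀ x y : Vx m, x.1 ≤ -(A : ℤ) → y.1 ≤ -(A : ℤ) → u x = u y)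
    (hR : ∀ x : Vx m, (B : ℤ) ≤ x.1 → u x = 0) (j : ZMod m) :
    ∃ k : ℕ, k < B ∧ bd u (true, (k : ℤ), 0) ≠ 0 ∧ ∃ e : Ed m, bd u e ≠ 0 ∧
      (BG u).Reachable (true, (k : ℤ), 0) e ∧
      ((∃ i : ℤ, i < 0 ∧ e = (true, i, 0)) ∨ (∃ i : ℤ, e = (true, i, j))) := by
  classical
  obtain ⟨C, hC⟩ := exists_odd_component u B h0 hR
  have h1 : ∃ k ∈ Finset.range B, ind u C (true, (k : ℤ), 0) ≠ 0 := by
    by_contra h
    push Not at h
    rw [Finset.sum_eq_zero h] at hC
    exact absurd hC (by decide)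
  obtain ⟨k, hk, hk'⟩ := h1
  have hmem : ∀ e : Ed m, ind u C e ≠ 0 → bd u e ≠ 0 ∧ (BG u).connectedComponentMk e = C := by
    intro e he
    unfold ind at he
    by_contra h
    rw [if_neg h] at he
    exact he rfl
  have hkC := hmem _ hk'
  have hreach : ∀ e : Ed m, ind u C e ≠ 0 → (BG u).Reachable (true, (k : ℤ), 0) e := by
    intro e he
    have h2 := (hmem e he).2
    apply SimpleGraph.ConnectedComponent.exact
    rw [hkC.2, h2]
  refine ⟨k, Finset.mem_range.mp hk, hkC.1, ?_⟩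
  by_cases hleft : ∃ i : ℤ, i < 0 ∧ ind u C (true, i, 0) ≠ 0
  · obtain ⟨i, hi, hi'⟩ := hleft
    exact ⟨(true, i, 0), (hmem _ hi').1, hreach _ hi', Or.inl ⟨i, hi, rfl⟩⟩
  · push Not at hleft
    have h4 : ∑ k ∈ Finset.range (A + B), ind u C (true, (k : ℤ) - A, 0) = 1 := by
      rw [Finset.sum_range_add]
      have h5 : ∑ k ∈ Finset.range A, ind u C (true, (k : ℤ) - A, 0) = 0 := by
        apply Finset.sum_eq_zero
        intro k hk
        apply hleft
        have := Finset.mem_range.mp hk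
        omega
      rw [h5, zero_add, ← hC]
      apply Finset.sum_congr rfl
      intro k _
      congr 2
      push_cast
      ring_nf
    rw [row_sum_eq_all u C A B hL hR j] at h4
    have h6 : ∃ k ∈ Finset.range (A + B), ind u C (true, (k : ℤ) - A, j) ≠ 0 := by
      by_contra h
      push Not at h
      rw [Finset.sum_eq_zero h] at h4
      exact absurd h4 (by decide)
    obtain ⟨k', hk1, hk2⟩ := h6
    exact ⟨_, (hmem _ hk2).1, hreach _ hk2, Or.inr ⟨_, rfl⟩⟩

/-- displacement along a walk of boundary edges -/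
lemma walk_bound (u : Vx m → ZMod 2) {e e' : Ed m} (w : (BG u).Walk e e') :
    (e.2.1 ≤ e'.2.1 + w.length) ∧
      ∃ s : ℤ, |s| ≤ w.length ∧ e'.2.2 = e.2.2 + (s : ZMod m) := by
  induction w with
  | nil => exact ⟨by simp, 0, by simp, by simp⟩
  | cons h w ih =>
    rename_i e1 e2 e3
    obtain ⟨h1, s, hs, hs'⟩ := ih
    have hn : Near e1 e2 := h.2.2.2
    obtain ⟨⟨h3, h4⟩, h5⟩ := hn
    rw [SimpleGraph.Walk.length_cons]
    refine ⟨by push_cast; omega, ?_⟩
    rcases h5 with h5 | h5 | h5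
    · refine ⟨s, ?_, ?_⟩
      · push_cast; omega
      · rw [hs', h5]
    · refine ⟨s + 1, ?_, ?_⟩
      · rw [abs_le] at hs ⊢
        push_cast
        omega
      · rw [hs', h5]; push_cast; ring
    · refine ⟨s - 1, ?_, ?_⟩
      · rw [abs_le] at hs ⊢
        push_cast
        omega
      · rw [hs', h5]; push_cast; ring

lemma half_bound {m : ℕ} [NeZero m] {s : ℤ} (h : ((m / 2 : ℕ) : ZMod m) = 0 + (s : ZMod m)) :
    ((m / 2 : ℕ) : ℤ) ≤ |s| := by
  rw [zero_add] at h
  have h1 : (((m / 2 : ℕ) : ℤ) : ZMod m) = (s : ZMod m) := by exact_mod_cast h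
  rw [ZMod.intCast_eq_intCast_iff_dvd_sub] at h1
  by_contra hlt
  push Not at hlt
  rw [abs_lt] at hlt
  obtain ⟨c, hc⟩ := h1
  have hm : 0 < m := Nat.pos_of_ne_zero (NeZero.ne m)
  have h2 : ((m / 2 : ℕ) : ℤ) * 2 ≤ m := by
    have := Nat.div_mul_le_self m 2
    exact_mod_cast this
  have hc0 : c = 0 := by
    by_contra hne
    rcases lt_or_gt_of_ne hne with hneg | hpos
    · have : (m : ℤ) * c ≤ -(m : ℤ) := by nlinarith
      omega
    · have : (m : ℤ) ≤ (m : ℤ) * c := by nlinarith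
      omega
  rw [hc0] at hc
  omega

/-- a self-avoiding chain of `L + 1` distinct boundary edges -/
lemma exists_chain [NeZero m] (u : Vx m → ZMod 2) (A B : ℕ) (h0 : u (0, 0) = 1)
    (hL : ∀ x y : Vx m, x.1 ≤ -(A : ℤ) → y.1 ≤ -(A : ℤ) → u x = u y)
    (hR : ∀ x : Vx m, (B : ℤ) ≤ x.1 → u x = 0) :
    ∃ k : ℕ, k < B ∧ ∃ L : ℕ,
      (L = m / 2 ∨ (L = min (k + 1) (m / 2) ∧ ∃ i : ℤ, i < 0 ∧ bd u (true, i, 0) ≠ 0)) ∧
      ∃ f : ℕ → Ed m, f 0 = (true, (k : ℤ), 0) ∧ Set.InjOn f {t | t ≤ L} ∧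
        (∀ t, t ≤ L → bd u (f t) ≠ 0) ∧ (∀ t, t < L → Near (f t) (f (t + 1))) := by
  obtain ⟨k, hk, hkb, e, he, hreach, halt⟩ := exists_dual u A B h0 hL hR ((m / 2 : ℕ) : ZMod m)
  obtain ⟨p, hp⟩ := hreach.exists_isPath
  have hwb := walk_bound u p
  have main : ∀ L : ℕ, L ≤ p.length →
      ∃ f : ℕ → Ed m, f 0 = (true, (k : ℤ), 0) ∧ Set.InjOn f {t | t ≤ L} ∧
        (∀ t, t ≤ L → bd u (f t) ≠ 0) ∧ (∀ t, t < L → Near (f t) (f (t + 1))) := by
    intro L hLp
    refine ⟨p.getVert, p.getVert_zero, ?_, ?_, ?_⟩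
    · intro a ha b hb hab
      have ha' : a ≤ L := ha
      have hb' : b ≤ L := hb
      exact hp.getVert_injOn (show a ≤ p.length by omega) (show b ≤ p.length by omega) hab
    · intro t ht
      rcases Nat.eq_zero_or_pos t with rfl | htpos
      · rw [p.getVert_zero]; exact hkb
      · have := p.adj_getVert_succ (i := t - 1) (by omega)
        rw [Nat.sub_add_cancel htpos] at this
        exact this.2.2.1
    · intro t ht
      exact (p.adj_getVert_succ (i := t) (by omega)).2.2.2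
  refine ⟨k, hk, ?_⟩
  rcases halt with ⟨i, hi, rfl⟩ | ⟨i, rfl⟩
  · refine ⟨min (k + 1) (m / 2), Or.inr ⟨rfl, i, hi, he⟩, main _ ?_⟩
    have := hwb.1
    simp only at this
    have : k + 1 ≤ p.length := by omega
    exact le_trans (min_le_left _ _) this
  · refine ⟨m / 2, Or.inl rfl, main _ ?_⟩
    obtain ⟨s, hs, hs'⟩ := hwb.2
    have := half_bound (m := m) (s := s) hs'
    have h3 : ((m / 2 : ℕ) : ℤ) ≤ p.length := le_trans this hs
    exact_mod_cast h3

end Pool.Agent.W_MP_6e7106_pr
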