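import Pool.Agent.W_MP_6e7106_pr.Bounds

/-!
# Crossing probabilities: scaling inequalities
-/

namespace Pool.Agent.W_MP_6e7106_pr

variable {m : ℕ}

/-- crossing probability of a slab of length `l` and circumference `m` -/
noncomputable def xp (m : ℕ) [NeZero m] (p : ℝ) (l : ℕ) : ℝ :=
  PN (l + 1) m p (Cross 0 (l : ℤ))

lemma PN_cross_eq {N : ℕ} [NeZero N] [NeZero m] {p : ℝ} {l : ℕ} (hl : l < N) (a : ℤ) :
    PN N m p (Cross a (a + l)) = xp m p l := by
  let f : Ix (l + 1) m → Ix N m := fun i => (i.1, ((i.2.1.val + a : ℤ) : ZMod N), i.2.2)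
  have hf : Function.Injective f := by
    rintro ⟨b, i, j⟩ ⟨b', i', j'⟩ h
    simp only [f, Prod.mk.injEq] at h
    obtain ⟨h1, h2, h3⟩ := h
    have hi := ZMod.val_lt i
    have hi' := ZMod.val_lt i'
    have := cast_inj (N := N) (a := a) (b := a + l) (by omega) (by omega) (by omega) (by omega)
      (by omega) h2
    have hv : i.val = i'.val := by omega
    have := ZMod.val_injective (l + 1) hv
    simp [h1, h3, this]
  unfold xp PN
  rw [← Pr_comp_injective hf (fun ω : Ix (l + 1) m → Bool => Cross 0 (l : ℤ) (lift ω))]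
  apply Pr_congr
  intro ω
  have hη : ∀ (k : Bool) (i : ℤ) (j : ZMod m), 0 ≤ i → i ≤ (l : ℤ) →
      lift (fun i => ω (f i)) (k, i, j) = lift ω (k, i + a, j) := by
    intro k i j h1 h2
    simp only [lift, f]
    have : (((i : ZMod (l + 1)).val : ℕ) : ℤ) = i := by
      rw [ZMod.val_intCast]
      apply Int.emod_eq_of_lt h1
      push_cast
      omega
    rw [this]
  have := Cross.shift_iff (a := 0) (b := (l : ℤ)) (s := a) hη
  rw [this, zero_add, add_comm (l : ℤ) a]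

lemma xp_nonneg [NeZero m] {p : ℝ} (hp0 : 0 ≤ p) (hp1 : p ≤ 1) (l : ℕ) : 0 ≤ xp m p l :=
  PN_nonneg hp0 hp1 _

lemma xp_le_one [NeZero m] {p : ℝ} (hp0 : 0 ≤ p) (hp1 : p ≤ 1) (l : ℕ) : xp m p l ≤ 1 :=
  PN_le_one hp0 hp1 _

lemma xp_anti [NeZero m] {p : ℝ} (hp0 : 0 ≤ p) (hp1 : p ≤ 1) {l l' : ℕ} (h : l ≤ l') :
    xp m p l' ≤ xp m p l := by
  have h1 := PN_cross_eq (N := l' + 1) (m := m) (p := p) (l := l') (by omega) 0
  have h2 := PN_cross_eq (N := l' + 1) (m := m) (p := p) (l := l) (by omega) 0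
  rw [← h1, ← h2]
  apply PN_mono hp0 hp1
  intro η hη
  exact hη.shorten (by omega) (by omega)

lemma xp_lower [NeZero m] {p : ℝ} (hp0 : 0 ≤ p) (hp1 : p ≤ 1) {l : ℕ} (hl : 0 < l) :
    1 - l * (18 ^ (m / 2) * (1 - p) ^ (m / 2 + 1)) ≤ xp m p l := by
  have h := PN_not_cross (N := l + 1) (m := m) hp0 hp1 hl (by omega)
  rw [PN_not] at h
  unfold xp
  linarith

/-- dependence on the horizontal edges leaving column `i` -/
lemma PN_noCut {N : ℕ} [NeZero N] [NeZero m] {p : ℝ} {l : ℕ} (hl : l ≤ N) :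
    PN N m p (fun η => ∀ i ∈ Finset.range l, ∃ j, η (true, (i : ℤ), j) = true) =
      (1 - (1 - p) ^ m) ^ l := by
  classical
  unfold PN
  let D : ℕ → Set (Ix N m) := fun i => {x | x.1 = true ∧ x.2.1 = (i : ZMod N)}
  have hcast : ∀ i : ℕ, (((i : ℤ)) : ZMod N) = (i : ZMod N) := fun i => by push_cast; rfl
  -- use a modified family whose supports are disjoint for all indices
  let A : Fin l → (Ix N m → Bool) → Prop := fun i ω => ∃ j, ω (true, ((i : ℕ) : ZMod N), j) = true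
  have hdep : ∀ i : Fin l, Dep (A i) (D i) := by
    intro i ω ω' h
    simp only [A]
    apply exists_congr
    intro j
    rw [h (true, ((i : ℕ) : ZMod N), j) ⟨rfl, rfl⟩]
  have hdisj : ∀ i i' : Fin l, i ≠ i' → Disjoint (D i) (D i') := by
    intro i i' hne
    rw [Set.disjoint_left]
    rintro x ⟨_, h1⟩ ⟨_, h2⟩
    apply hne
    rw [h1] at h2
    have h3 : (((i : ℕ) : ℤ) : ZMod N) = (((i' : ℕ) : ℤ) : ZMod N) := by
      rw [hcast, hcast]; exact h2
    have hi := i.2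
    have hi' := i'.2
    have := cast_inj (N := N) (a := 0) (b := (l : ℤ) - 1) (by omega) (by omega) (by omega)
      (by omega) (by omega) h3
    exact Fin.ext (by exact_mod_cast this)
  have hsingle : ∀ i : Fin l, Pr p (A i) = 1 - (1 - p) ^ m := by
    intro i
    have h1 : Pr p (A i) = Pr p (fun ω : Ix N m → Bool => ¬ ∀ x ∈ (Finset.univ.image
        (fun j : ZMod m => ((true, ((i : ℕ) : ZMod N), j) : Ix N m))), ω x = false) := by
      apply Pr_congr
      intro ω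
      simp [A]
    rw [h1, Pr_not, Pr_forall_eq_false, Finset.card_image_of_injective]
    · rw [Finset.card_univ, ZMod.card]
    · intro j j' h
      simpa using h
  have h2 := Pr_forall_of_dep (p := p) (Finset.univ : Finset (Fin l)) (fun i => D i) A hdep hdisj
  rw [Finset.prod_congr rfl (fun i _ => hsingle i)] at h2
  rw [Finset.prod_const, Finset.card_univ, Fintype.card_fin] at h2
  rw [← h2]
  apply Pr_congr
  intro ω
  constructor
  · intro h i _
    obtain ⟨j, hj⟩ := h i (Finset.mem_range.mpr i.2)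
    exact ⟨j, by simpa [lift] using hj⟩
  · intro h i hi
    obtain ⟨j, hj⟩ := h ⟨i, Finset.mem_range.mp hi⟩ (Finset.mem_univ _)
    exact ⟨j, by simpa [lift] using hj⟩

lemma xp_upper [NeZero m] {p : ℝ} (hp0 : 0 ≤ p) (hp1 : p ≤ 1) (l : ℕ) :
    xp m p l ≤ (1 - (1 - p) ^ m) ^ l := by
  rw [← PN_noCut (N := l + 1) (m := m) (p := p) (l := l) (by omega)]
  apply PN_mono hp0 hp1
  intro η hη i hi
  have := Finset.mem_range.mp hi
  exact hη.exists_open (by omega) (by omega)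

/-- some column among `a, ..., a + r` is fully open -/
def HasCol (a : ℤ) (r : ℕ) (η : Ed m → Bool) : Prop :=
  ∃ c : ℤ, a ≤ c ∧ c ≤ a + r ∧ OpenCol η c

lemma PN_hasCol {N : ℕ} [NeZero N] [NeZero m] {p : ℝ} {r : ℕ} (hr : r < N) (a : ℤ) :
    PN N m p (HasCol a r) = 1 - (1 - p ^ m) ^ (r + 1) := by
  classical
  let D : Fin (r + 1) → Set (Ix N m) := fun i =>
    {x | x.1 = false ∧ x.2.1 = ((a + (i : ℕ) : ℤ) : ZMod N)}
  let A : Fin (r + 1) → (Ix N m → Bool) → Prop := fun i ω =>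
    ¬ ∀ j, ω (false, ((a + (i : ℕ) : ℤ) : ZMod N), j) = true
  have hdep : ∀ i, Dep (A i) (D i) := by
    intro i ω ω' h
    simp only [A]
    apply not_congr
    apply forall_congr'
    intro j
    rw [h (false, ((a + (i : ℕ) : ℤ) : ZMod N), j) ⟨rfl, rfl⟩]
  have hdisj : ∀ i i' : Fin (r + 1), i ≠ i' → Disjoint (D i) (D i') := by
    intro i i' hne
    rw [Set.disjoint_left]
    rintro x ⟨_, h1⟩ ⟨_, h2⟩
    apply hne
    rw [h1] at h2
    have hi := i.2
    have hi' := i'.2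
    have := cast_inj (N := N) (a := a) (b := a + r) (by omega) (by omega) (by omega)
      (by omega) (by omega) h2
    exact Fin.ext (by omega)
  have hsingle : ∀ i, Pr p (A i) = 1 - p ^ m := by
    intro i
    have h1 : Pr p (A i) = Pr p (fun ω : Ix N m → Bool => ¬ ∀ x ∈ (Finset.univ.image
        (fun j : ZMod m => ((false, ((a + (i : ℕ) : ℤ) : ZMod N), j) : Ix N m))),
          ω x = true) := by
      apply Pr_congr
      intro ω
      simp only [A, Finset.mem_image, Finset.mem_univ, true_and, forall_exists_index,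
        forall_apply_eq_imp_iff]
    rw [h1, Pr_not, Pr_forall_eq_true, Finset.card_image_of_injective]
    · rw [Finset.card_univ, ZMod.card]
    · intro j j' h
      simpa using h
  have h2 := Pr_forall_of_dep (p := p) (Finset.univ : Finset (Fin (r + 1))) D A hdep hdisj
  rw [Finset.prod_congr rfl (fun i _ => hsingle i)] at h2
  rw [Finset.prod_const, Finset.card_univ, Fintype.card_fin] at h2
  rw [← h2, ← Pr_not]
  apply Pr_congr
  intro ω
  constructor
  · rintro ⟨c, h1, h2, h3⟩ hall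
    have h4 : (c - a).toNat < r + 1 := by omega
    apply hall ⟨(c - a).toNat, h4⟩ (Finset.mem_univ _)
    intro j
    have := h3 j
    simp only [lift] at this
    have h5 : (a + ((c - a).toNat : ℕ) : ℤ) = c := by omega
    simp only [h5]
    exact this
  · intro h
    simp only [A] at h
    push Not at h
    obtain ⟨i, _, hi⟩ := h
    have := i.2
    exact ⟨a + (i : ℕ), by omega, by omega, fun j => hi j⟩

lemma HasCol.mono {a : ℤ} {r : ℕ} {η η' : Ed m → Bool} (h : η ≤ η') (hη : HasCol a r η) :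
    HasCol a r η' := by
  obtain ⟨c, h1, h2, h3⟩ := hη
  refine ⟨c, h1, h2, fun j => ?_⟩
  have := h (false, c, j)
  rw [h3 j] at this
  exact top_le_iff.mp this

lemma inc_cross {N : ℕ} (a b : ℤ) :
    Inc (fun ω : Ix N m → Bool => Cross a b (lift ω)) :=
  fun _ _ h hc => hc.mono (lift_mono h)

lemma inc_hasCol {N : ℕ} (a : ℤ) (r : ℕ) :
    Inc (fun ω : Ix N m → Bool => HasCol a r (lift ω)) :=
  fun _ _ h hc => hc.mono (lift_mono h)

/-- doubling inequality -/
lemma xp_double [NeZero m] {p : ℝ} (hp0 : 0 ≤ p) (hp1 : p ≤ 1) {l r : ℕ} (hr : r ≤ l) :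
    xp m p l ^ 2 * (1 - (1 - p ^ m) ^ (r + 1)) ≤ xp m p (2 * l - r) := by
  set N := 2 * l - r + 1 with hN
  have e1 := PN_cross_eq (N := N) (m := m) (p := p) (l := l) (by omega) 0
  have e2 := PN_cross_eq (N := N) (m := m) (p := p) (l := l) (by omega) ((l : ℤ) - r)
  have e3 := PN_hasCol (N := N) (m := m) (p := p) (r := r) (by omega) ((l : ℤ) - r)
  have e4 := PN_cross_eq (N := N) (m := m) (p := p) (l := 2 * l - r) (by omega) 0
  rw [← e4, ← e3]
  have h1 : PN N m p (Cross 0 (0 + (l : ℤ))) * PN N m p (Cross ((l : ℤ) - r) ((l : ℤ) - r + l)) ≤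
      PN N m p (fun η => Cross 0 (0 + (l : ℤ)) η ∧ Cross ((l : ℤ) - r) ((l : ℤ) - r + l) η) :=
    harris hp0 hp1 (inc_cross _ _) (inc_cross _ _)
  have h2 : PN N m p (fun η => Cross 0 (0 + (l : ℤ)) η ∧
      Cross ((l : ℤ) - r) ((l : ℤ) - r + l) η) * PN N m p (HasCol ((l : ℤ) - r) r) ≤
      PN N m p (fun η => (Cross 0 (0 + (l : ℤ)) η ∧ Cross ((l : ℤ) - r) ((l : ℤ) - r + l) η) ∧
        HasCol ((l : ℤ) - r) r η) :=
    harris hp0 hp1 ((inc_cross _ _).and (inc_cross _ _)) (inc_hasCol _ _)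
  rw [e1, e2] at h1
  calc xp m p l ^ 2 * PN N m p (HasCol ((l : ℤ) - r) r)
      = (xp m p l * xp m p l) * PN N m p (HasCol ((l : ℤ) - r) r) := by ring
    _ ≤ _ := mul_le_mul_of_nonneg_right h1 (PN_nonneg hp0 hp1 _)
    _ ≤ _ := h2
    _ ≤ _ := by
        apply PN_mono hp0 hp1
        rintro η ⟨⟨g1, g2⟩, c, g3, g4, g5⟩
        have := g1.glue g2 (e := c) (by omega) (by omega) (by omega) (by omega) g5
        have hh : (l : ℤ) - r + l = 0 + ((2 * l - r : ℕ) : ℤ) := by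
          push_cast [Nat.cast_sub (by omega : r ≤ 2 * l)]
          ring
        rwa [hh] at this

/-- iterated doubling -/
lemma xp_iter [NeZero m] {p : ℝ} (hp0 : 0 ≤ p) (hp1 : p ≤ 1) {l r : ℕ} (hr : r ≤ l) (k : ℕ) :
    (xp m p l * (1 - (1 - p ^ m) ^ (r + 1))) ^ (2 ^ k) ≤ xp m p (2 ^ k * (l - r) + r) *
      (1 - (1 - p ^ m) ^ (r + 1)) := by
  have hpm : 0 ≤ 1 - p ^ m := by
    have := pow_le_one₀ (n := m) hp0 hp1
    linarith
  have hpm1 : 1 - p ^ m ≤ 1 := by
    have := pow_nonneg hp0 m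
    linarith
  have hε0 : 0 ≤ 1 - (1 - p ^ m) ^ (r + 1) := by
    have := pow_le_one₀ (n := r + 1) hpm hpm1
    linarith
  have hε1 : 1 - (1 - p ^ m) ^ (r + 1) ≤ 1 := by
    have := pow_nonneg hpm (r + 1)
    linarith
  induction k with
  | zero =>
    have : 2 ^ 0 * (l - r) + r = l := by omega
    rw [this]
    simp
  | succ k ih =>
    have h1 : 2 ^ (k + 1) * (l - r) + r = 2 * (2 ^ k * (l - r) + r) - r := by
      have : 2 ^ (k + 1) * (l - r) = 2 * (2 ^ k * (l - r)) := by ring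
      omega
    have h2 := xp_double (m := m) hp0 hp1 (l := 2 ^ k * (l - r) + r) (r := r) (by omega)
    rw [h1]
    have h3 : 0 ≤ xp m p l * (1 - (1 - p ^ m) ^ (r + 1)) :=
      mul_nonneg (xp_nonneg hp0 hp1 _) hε0
    calc (xp m p l * (1 - (1 - p ^ m) ^ (r + 1))) ^ (2 ^ (k + 1))
        = ((xp m p l * (1 - (1 - p ^ m) ^ (r + 1))) ^ (2 ^ k)) ^ 2 := by
          rw [← pow_mul, ← pow_succ]
      _ ≤ (xp m p (2 ^ k * (l - r) + r) * (1 - (1 - p ^ m) ^ (r + 1))) ^ 2 :=
          pow_le_pow_left₀ (pow_nonneg h3 _) ih 2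
      _ = (xp m p (2 ^ k * (l - r) + r) ^ 2 * (1 - (1 - p ^ m) ^ (r + 1))) *
            (1 - (1 - p ^ m) ^ (r + 1)) := by ring
      _ ≤ _ := mul_le_mul_of_nonneg_right h2 hε0

/-- If a long slab is unlikely to be crossed, then a short one (in terms of the doubling
ratio) has a non-negligible probability not to be crossed. -/
lemma xp_short [NeZero m] {p : ℝ} (hp0 : 0 ≤ p) (hp1 : p ≤ 1) {l r k n : ℕ} (hr : r ≤ l)
    (hn : n ≤ 2 ^ k * (l - r) + r) (hx : xp m p n < 1 / 2) {ε : ℝ} (hε : (1 - p ^ m) ^ (r + 1) ≤ ε)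
    (hεk : ε ≤ 1 / (4 * 2 ^ k)) :
    xp m p l ≤ 1 - 1 / (4 * 2 ^ k) := by
  by_contra hcon
  push Not at hcon
  have hpm : 0 ≤ 1 - p ^ m := by
    have := pow_le_one₀ (n := m) hp0 hp1
    linarith
  have hpm1 : 1 - p ^ m ≤ 1 := by
    have := pow_nonneg hp0 m
    linarith
  have hε1 : 1 - (1 - p ^ m) ^ (r + 1) ≤ 1 := by
    have := pow_nonneg hpm (r + 1)
    linarith
  have hε0 : 0 ≤ 1 - (1 - p ^ m) ^ (r + 1) := by
    have := pow_le_one₀ (n := r + 1) hpm hpm1
    linarith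
  have h1 := xp_iter (m := m) hp0 hp1 hr k
  have h2 := xp_anti (m := m) hp0 hp1 hn
  have h3 : xp m p (2 ^ k * (l - r) + r) * (1 - (1 - p ^ m) ^ (r + 1)) < 1 / 2 := by
    calc _ ≤ xp m p (2 ^ k * (l - r) + r) * 1 :=
          mul_le_mul_of_nonneg_left hε1 (xp_nonneg hp0 hp1 _)
      _ < 1 / 2 := by linarith
  set K : ℝ := 2 ^ k with hK
  have hK1 : (1 : ℝ) ≤ K := one_le_pow₀ (by norm_num)
  have hKpos : 0 < K := by linarith
  set d : ℝ := 1 / (4 * K) with hd
  have hdpos : 0 < d := by positivity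
  have hd4 : d ≤ 1 / 4 := by
    rw [hd]
    apply one_div_le_one_div_of_le (by norm_num)
    linarith
  have h4 : 1 - 2 * d ≤ xp m p l * (1 - (1 - p ^ m) ^ (r + 1)) := by
    have h5 : (1 - d) * (1 - d) ≤ xp m p l * (1 - (1 - p ^ m) ^ (r + 1)) := by
      apply mul_le_mul hcon.le (by linarith) (by linarith) (xp_nonneg hp0 hp1 _)
    nlinarith
  have h6 : 1 - 2 * d * K ≤ (1 - 2 * d) ^ (2 ^ k) := by
    have := one_add_mul_le_pow (a := -(2 * d)) (by linarith) (2 ^ k)
    push_cast at this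
    have h7 : 1 + -(2 * d) = 1 - 2 * d := by ring
    rw [h7] at this
    rw [← hK] at this
    linarith
  have h8 : (1 - 2 * d) ^ (2 ^ k) ≤ (xp m p l * (1 - (1 - p ^ m) ^ (r + 1))) ^ (2 ^ k) :=
    pow_le_pow_left₀ (by linarith) h4 _
  have h9 : 2 * d * K = 1 / 2 := by
    rw [hd]; field_simp; norm_num
  linarith

end Pool.Agent.W_MP_6e7106_pr
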