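import Pool.Agent.W_MP_6e7106_pr.Scale

/-!
# The critical length of a thin cylinder, for a fixed value of `p` close to `1`
-/

namespace Pool.Agent.W_MP_6e7106_pr

variable {m : ℕ}

/-- the fixed edge density -/
noncomputable def pc : ℝ := 1 - 1 / 2 ^ 17

lemma pc_nonneg : 0 ≤ pc := by unfold pc; norm_num
lemma pc_le_one : pc ≤ 1 := by unfold pc; norm_num
lemma pc_lt_one : pc < 1 := by unfold pc; norm_num
lemma pc_half : 1 / 2 ≤ pc := by unfold pc; norm_num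
lemma one_sub_pc : 1 - pc = 1 / 2 ^ 17 := by unfold pc; ring

/-- the length of a stretch which contains a fully open column with high probability -/
def rr (m : ℕ) : ℕ := m * 2 ^ m

lemma eps_bound (m : ℕ) : (1 - pc ^ m) ^ (rr m + 1) ≤ (1 / 2) ^ m := by
  have h1 : (1 / 2 : ℝ) ^ m ≤ pc ^ m := pow_le_pow_left₀ (by norm_num) pc_half m
  have h2 : pc ^ m ≤ 1 := pow_le_one₀ pc_nonneg pc_le_one
  have h3 : (1 - pc ^ m) ^ (rr m + 1) ≤ (1 - pc ^ m) ^ (rr m) :=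
    pow_le_pow_of_le_one (by linarith) (by linarith [pow_nonneg pc_nonneg m]) (Nat.le_succ _)
  have h4 : (1 - pc ^ m) ^ (rr m) ≤ (1 - (1 / 2) ^ m) ^ (rr m) :=
    pow_le_pow_left₀ (by linarith) (by linarith) _
  have h5 : (1 - (1 / 2 : ℝ) ^ m) ^ (rr m) = ((1 - 1 / ((2 ^ m : ℕ) : ℝ)) ^ (2 ^ m)) ^ m := by
    unfold rr
    rw [← pow_mul, mul_comm m]
    push_cast
    rw [one_div_pow]
  have h6 : (1 - 1 / ((2 ^ m : ℕ) : ℝ)) ^ (2 ^ m) ≤ 1 / 2 := by
    have h7 := Real.one_sub_div_pow_le_exp_neg (n := 2 ^ m) (t := 1) (by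
      exact_mod_cast Nat.one_le_two_pow)
    have h8 : Real.exp (-1) ≤ 1 / 2 := by
      rw [Real.exp_neg, inv_eq_one_div]
      apply one_div_le_one_div_of_le (by norm_num)
      have := Real.add_one_le_exp (1 : ℝ)
      linarith
    exact h7.trans h8
  have h9 : (0 : ℝ) ≤ (1 - 1 / ((2 ^ m : ℕ) : ℝ)) ^ (2 ^ m) := by
    apply pow_nonneg
    have : (1 : ℝ) ≤ ((2 ^ m : ℕ) : ℝ) := by exact_mod_cast Nat.one_le_two_pow
    have h10 : 1 / ((2 ^ m : ℕ) : ℝ) ≤ 1 := by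
      rw [div_le_one (by linarith)]
      exact this
    linarith
  calc (1 - pc ^ m) ^ (rr m + 1) ≤ (1 - (1 / 2 : ℝ) ^ m) ^ (rr m) := h3.trans h4
    _ = _ := h5
    _ ≤ _ := pow_le_pow_left₀ h9 h6 m

/-- weight of a chain -/
lemma chain_weight (h : ℕ) : 18 ^ h * (1 - pc) ^ (h + 1) ≤ (1 / 2 ^ 12) ^ h * (1 / 2 ^ 17) := by
  rw [one_sub_pc, pow_succ, ← mul_assoc, ← mul_pow]
  apply mul_le_mul_of_nonneg_right _ (by norm_num)
  exact pow_le_pow_left₀ (by norm_num) (by norm_num) h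

lemma xp_initial (m : ℕ) [NeZero m] : 1 / 2 ≤ xp m pc (2 ^ (3 * m)) := by
  have h1 := xp_lower (m := m) pc_nonneg pc_le_one (l := 2 ^ (3 * m)) (by positivity)
  have h2 := chain_weight (m / 2)
  have h3 : ((2 ^ (3 * m) : ℕ) : ℝ) * ((1 / 2 ^ 12) ^ (m / 2) * (1 / 2 ^ 17)) ≤ 1 / 2 := by
    have h4 : (((1 : ℝ) / 2 ^ 12) ^ (m / 2) * (1 / 2 ^ 17)) = 1 / 2 ^ (12 * (m / 2) + 17) := by
      rw [one_div_pow, ← pow_mul, one_div_mul_one_div, ← pow_add]
    rw [h4]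
    push_cast
    rw [mul_one_div, div_le_div_iff₀ (by positivity) (by norm_num), one_mul, ← pow_succ]
    apply pow_le_pow_right₀ (by norm_num)
    omega
  have h5 : ((2 ^ (3 * m) : ℕ) : ℝ) * (18 ^ (m / 2) * (1 - pc) ^ (m / 2 + 1)) ≤ 1 / 2 :=
    le_trans (mul_le_mul_of_nonneg_left h2 (by positivity)) h3
  linarith

lemma exists_small (m : ℕ) [NeZero m] : ∃ t : ℕ, xp m pc (2 ^ t) < 1 / 2 := by
  have hq : 0 < 1 - pc := by rw [one_sub_pc]; norm_num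
  have h1 : 1 - (1 - pc) ^ m < 1 := by
    have := pow_pos hq m
    linarith
  obtain ⟨n, hn⟩ := exists_pow_lt_of_lt_one (show (0 : ℝ) < 1 / 2 by norm_num) h1
  refine ⟨n, ?_⟩
  have h2 : xp m pc (2 ^ n) ≤ xp m pc n := xp_anti pc_nonneg pc_le_one Nat.lt_two_pow_self.le
  have h3 := xp_upper (m := m) pc_nonneg pc_le_one n
  linarith

lemma exists_threshold (m : ℕ) [NeZero m] :
    ∃ t : ℕ, 3 * m ≤ t ∧ 1 / 2 ≤ xp m pc (2 ^ t) ∧ xp m pc (2 ^ (t + 1)) < 1 / 2 := by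
  classical
  let P : ℕ → Prop := fun t => xp m pc (2 ^ t) < 1 / 2
  have hex : ∃ t, P t := exists_small m
  set T := Nat.find hex with hT
  have hTP : P T := Nat.find_spec hex
  have hlt : 3 * m < T := by
    by_contra h
    push Not at h
    have h1 : xp m pc (2 ^ (3 * m)) ≤ xp m pc (2 ^ T) :=
      xp_anti pc_nonneg pc_le_one (Nat.pow_le_pow_right (by norm_num) h)
    have h2 := xp_initial m
    have h3 : xp m pc (2 ^ T) < 1 / 2 := hTP
    linarith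
  refine ⟨T - 1, by omega, ?_, ?_⟩
  · have := Nat.find_min hex (m := T - 1) (by omega)
    exact not_lt.mp this
  · have h4 : T - 1 + 1 = T := by omega
    rw [h4]
    exact hTP

lemma rr_bound {m : ℕ} (hm : 3 ≤ m) : rr m + 1 ≤ 2 ^ (2 * m) := by
  unfold rr
  have h1 : m + 1 ≤ 2 ^ m := Nat.lt_two_pow_self
  have h2 : 1 ≤ 2 ^ m := Nat.one_le_two_pow
  have h3 : 2 ^ (2 * m) = 2 ^ m * 2 ^ m := by rw [two_mul, pow_add]
  rw [h3]
  nlinarith

/-- the origin is connected far away with probability at least `1/2` -/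
lemma PN_far {N : ℕ} [NeZero N] [NeZero m] (hm : 3 ≤ m) (hN : 2 * rr m < N) :
    1 / 2 ≤ PN N m pc (Far (rr m : ℤ)) := by
  have hr0 : 0 < rr m := by unfold rr; positivity
  have h := PN_not_far (N := N) (m := m) pc_nonneg pc_le_one hr0 hN
  rw [PN_not] at h
  set hh := m / 2 with hhh
  have hterm : ∀ k ∈ Finset.range (rr m), (18 : ℝ) ^ (min (k + 1) hh) *
      (1 - pc) ^ (min (k + 1) hh + 1) ≤
        ((1 / 2) ^ k * (1 / 2) + 1 / (2 ^ (2 * m))) * (1 / 8) := by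
    intro k _
    refine (chain_weight _).trans ?_
    rcases le_total (k + 1) hh with h1 | h1
    · rw [min_eq_left h1]
      have h2 : ((1 : ℝ) / 2 ^ 12) ^ (k + 1) ≤ (1 / 2) ^ (k + 1) :=
        pow_le_pow_left₀ (by norm_num) (by norm_num) _
      have h3 : (0 : ℝ) < 1 / 2 ^ (2 * m) := by positivity
      have h4 : (0 : ℝ) ≤ (1 / 2 ^ 12) ^ (k + 1) := by positivity
      rw [pow_succ (1 / 2 : ℝ)] at h2
      nlinarith
    · rw [min_eq_right h1]
      have h2 : ((1 : ℝ) / 2 ^ 12) ^ hh * (1 / 2 ^ 17) ≤ 1 / (2 ^ (2 * m)) * (1 / 8) := by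
        have h4 : (((1 : ℝ) / 2 ^ 12) ^ hh * (1 / 2 ^ 17)) = 1 / 2 ^ (12 * hh + 17) := by
          rw [one_div_pow, ← pow_mul, one_div_mul_one_div, ← pow_add]
        have h5 : (1 : ℝ) / (2 ^ (2 * m)) * (1 / 8) = 1 / 2 ^ (2 * m + 3) := by
          rw [one_div_mul_one_div, pow_add]; norm_num
        rw [h4, h5]
        apply one_div_le_one_div_of_le (by positivity)
        apply pow_le_pow_right₀ (by norm_num)
        omega
      have h3 : (0 : ℝ) ≤ (1 / 2) ^ k * (1 / 2) := by positivity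
      nlinarith
  have hsum := Finset.sum_le_sum hterm
  have hgeo : ∑ k ∈ Finset.range (rr m), (1 / 2 : ℝ) ^ k ≤ 2 := by
    rw [geom_sum_eq (by norm_num)]
    have : (0 : ℝ) ≤ (1 / 2) ^ (rr m) := by positivity
    rw [div_le_iff_of_neg (by norm_num)]
    linarith
  have hr : ((rr m : ℕ) : ℝ) * (1 / 2 ^ (2 * m)) ≤ 1 := by
    rw [mul_one_div, div_le_one (by positivity)]
    have := rr_bound hm
    have h2 : rr m ≤ 2 ^ (2 * m) := by omega
    exact_mod_cast h2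
  have htot : ∑ k ∈ Finset.range (rr m), (((1 / 2 : ℝ) ^ k * (1 / 2) + 1 / (2 ^ (2 * m))) *
      (1 / 8)) ≤ 1 / 2 := by
    rw [← Finset.sum_mul, Finset.sum_add_distrib, ← Finset.sum_mul, Finset.sum_const,
      Finset.card_range, nsmul_eq_mul]
    linarith
  linarith

/-- the good event: the origin is connected to one of the columns `±T` -/
def Reach (T : ℕ) (η : Ed m → Bool) : Prop :=
  ∃ y : Vx m, (y.1 = (T : ℤ) ∨ y.1 = -(T : ℤ)) ∧ Conn η (-(T : ℤ)) T (0, 0) y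

lemma inc_far {N : ℕ} (R : ℤ) : Inc (fun ω : Ix N m → Bool => Far R (lift ω)) := by
  rintro ω ω' h ⟨y, hy, hc⟩
  exact ⟨y, hy, hc.mono (lift_mono h) le_rfl le_rfl⟩

lemma reach_of_good [NeZero m] {R T : ℕ} (hRT : R ≤ T) {η : Ed m → Bool}
    (h1 : Far (R : ℤ) η) (h2 : HasCol 0 R η) (h3 : HasCol (-(R : ℤ)) R η)
    (h4 : Cross 0 (0 + (T : ℤ)) η) (h5 : Cross (-(T : ℤ)) (-(T : ℤ) + T) η) : Reach T η := by
  obtain ⟨y, hy, hc⟩ := h1
  rcases hy with hy | hy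
  · obtain ⟨c, hc1, hc2, hc3⟩ := h2
    obtain ⟨z, hz, hz'⟩ := hc.hit_right (b := c) (by simpa using hc1) (by omega)
    obtain ⟨x, w, hx, hw, hxw⟩ := h4
    obtain ⟨z2, hz2, hz2'⟩ := hxw.hit_left (b := c) (by omega) (by omega)
    refine ⟨w, Or.inl (by omega), ?_⟩
    have g1 : Conn η (-(T : ℤ)) T (0, 0) z := hz'.mono le_rfl (by omega) (by omega)
    have g3 : Conn η (-(T : ℤ)) T z2 w := hz2'.mono le_rfl (by omega) (by omega)
    have g2 : Conn η (-(T : ℤ)) T z z2 := by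
      have := (hc3.conn z.2 z2.2).mono (ω' := η) (a' := -(T : ℤ)) (b' := T) le_rfl (by omega)
        (by omega)
      have e1 : z = (c, z.2) := by rw [← hz]
      have e2 : z2 = (c, z2.2) := by rw [← hz2]
      rw [e1, e2]
      exact this
    exact (g1.trans g2).trans g3
  · obtain ⟨c, hc1, hc2, hc3⟩ := h3
    obtain ⟨z, hz, hz'⟩ := hc.hit_left' (b := c) (by simpa using hc2) (by omega)
    obtain ⟨x, w, hx, hw, hxw⟩ := h5
    obtain ⟨z2, hz2, hz2'⟩ := hxw.hit_right (b := c) (by omega) (by omega)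
    refine ⟨x, Or.inr hx, ?_⟩
    have g1 : Conn η (-(T : ℤ)) T (0, 0) z := hz'.mono le_rfl (by omega) (by omega)
    have g3 : Conn η (-(T : ℤ)) T z2 x := (hz2'.mono le_rfl (by omega) (by omega)).symm
    have g2 : Conn η (-(T : ℤ)) T z z2 := by
      have := (hc3.conn z.2 z2.2).mono (ω' := η) (a' := -(T : ℤ)) (b' := T) le_rfl (by omega)
        (by omega)
      have e1 : z = (c, z.2) := by rw [← hz]
      have e2 : z2 = (c, z2.2) := by rw [← hz2]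
      rw [e1, e2]
      exact this
    exact (g1.trans g2).trans g3

lemma PN_reach [NeZero m] (hm : 3 ≤ m) {t : ℕ} (ht : 3 * m ≤ t)
    (hx : 1 / 2 ≤ xp m pc (2 ^ t)) :
    haveI : NeZero (2 ^ (t + 1)) := ⟨by positivity⟩
    1 / 32 ≤ PN (2 ^ (t + 1)) m pc (Reach (2 ^ t)) := by
  haveI : NeZero (2 ^ (t + 1)) := ⟨by positivity⟩
  have hR1 := rr_bound hm
  have hR2 : 2 ^ (2 * m) ≤ 2 ^ t := Nat.pow_le_pow_right (by norm_num) (by omega)
  have hRT : rr m < 2 ^ t := by omega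
  have hNT : 2 ^ (t + 1) = 2 * 2 ^ t := by rw [pow_succ]; ring
  set N := 2 ^ (t + 1) with hN
  set T := 2 ^ t with hT
  have e1 : 1 / 2 ≤ PN N m pc (Far (rr m : ℤ)) := PN_far hm (by omega)
  have heps : (1 - pc ^ m) ^ (rr m + 1) ≤ 1 / 2 := by
    refine (eps_bound m).trans ?_
    calc (1 / 2 : ℝ) ^ m ≤ (1 / 2) ^ 1 :=
          pow_le_pow_of_le_one (by norm_num) (by norm_num) (by omega)
      _ = 1 / 2 := by norm_num
  have e2 : 1 / 2 ≤ PN N m pc (HasCol 0 (rr m)) := by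
    rw [PN_hasCol (by omega)]; linarith
  have e3 : 1 / 2 ≤ PN N m pc (HasCol (-(rr m : ℤ)) (rr m)) := by
    rw [PN_hasCol (by omega)]; linarith
  have e4 : 1 / 2 ≤ PN N m pc (Cross 0 (0 + (T : ℤ))) := by
    rw [PN_cross_eq (by omega)]; exact hx
  have e5 : 1 / 2 ≤ PN N m pc (Cross (-(T : ℤ)) (-(T : ℤ) + T)) := by
    rw [PN_cross_eq (by omega)]; exact hx
  have i1 := inc_far (N := N) (m := m) (rr m : ℤ)
  have i2 := inc_hasCol (N := N) (m := m) 0 (rr m)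
  have i3 := inc_hasCol (N := N) (m := m) (-(rr m : ℤ)) (rr m)
  have i4 := inc_cross (N := N) (m := m) 0 (0 + (T : ℤ))
  have i5 := inc_cross (N := N) (m := m) (-(T : ℤ)) (-(T : ℤ) + T)
  have k12 := harris pc_nonneg pc_le_one i1 i2
  have k123 := harris pc_nonneg pc_le_one (i1.and i2) i3
  have k1234 := harris pc_nonneg pc_le_one ((i1.and i2).and i3) i4
  have k12345 := harris pc_nonneg pc_le_one (((i1.and i2).and i3).and i4) i5
  have hfin : Pr pc (fun ω : Ix N m → Bool => ((((Far (rr m : ℤ) (lift ω)) ∧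
      HasCol 0 (rr m) (lift ω)) ∧ HasCol (-(rr m : ℤ)) (rr m) (lift ω)) ∧
      Cross 0 (0 + (T : ℤ)) (lift ω)) ∧ Cross (-(T : ℤ)) (-(T : ℤ) + T) (lift ω)) ≤
      PN N m pc (Reach T) := by
    apply Pr_mono pc_nonneg pc_le_one
    rintro ω ⟨⟨⟨⟨g1, g2⟩, g3⟩, g4⟩, g5⟩
    exact reach_of_good hRT.le g1 g2 g3 g4 g5
  unfold PN at e1 e2 e3 e4 e5
  have b2 : 1 / 4 ≤ Pr pc (fun ω : Ix N m → Bool => ((Far (rr m : ℤ) (lift ω)) ∧
      HasCol 0 (rr m) (lift ω))) := by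
    refine le_trans ?_ k12
    nlinarith
  have b3 : 1 / 8 ≤ Pr pc (fun ω : Ix N m → Bool => (((Far (rr m : ℤ) (lift ω)) ∧
      HasCol 0 (rr m) (lift ω)) ∧ HasCol (-(rr m : ℤ)) (rr m) (lift ω))) := by
    refine le_trans ?_ k123
    nlinarith
  have b4 : 1 / 16 ≤ Pr pc (fun ω : Ix N m → Bool => ((((Far (rr m : ℤ) (lift ω)) ∧
      HasCol 0 (rr m) (lift ω)) ∧ HasCol (-(rr m : ℤ)) (rr m) (lift ω)) ∧
      Cross 0 (0 + (T : ℤ)) (lift ω))) := by
    refine le_trans ?_ k1234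
    nlinarith
  refine le_trans ?_ hfin
  refine le_trans ?_ k12345
  nlinarith

/-- non-crossing of all blocks -/
lemma PN_blocks [NeZero m] {t k : ℕ} (hkm : k + 3 ≤ m) (ht : 3 * m ≤ t)
    (hx : xp m pc (2 ^ (t + 1)) < 1 / 2) :
    haveI : NeZero (2 ^ (t + 1)) := ⟨by positivity⟩
    (1 / (4 * 2 ^ (k + 1)) : ℝ) ^ (2 ^ k) ≤ PN (2 ^ (t + 1)) m pc (fun η =>
      ∀ s ∈ Finset.range (2 ^ k), ¬ Cross ((s : ℤ) * (2 ^ (t + 1 - k) : ℕ))
        ((s : ℤ) * (2 ^ (t + 1 - k) : ℕ) + (2 ^ (t + 1 - k) - 1 : ℕ)) η) := by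
  haveI : NeZero (2 ^ (t + 1)) := ⟨by positivity⟩
  have hm : 3 ≤ m := by omega
  have hR1 := rr_bound hm
  set L := 2 ^ (t + 1 - k) with hL
  have hL2 : L = 2 * 2 ^ (t - k) := by
    rw [hL, ← pow_succ']
    congr 1
    omega
  have hR2 : 2 ^ (2 * m) ≤ 2 ^ (t - k) := Nat.pow_le_pow_right (by norm_num) (by omega)
  have hLN : 2 ^ (t + 1) = 2 ^ k * L := by
    rw [hL, ← pow_add]; congr 1; omega
  have hxs : xp m pc (L - 1) ≤ 1 - 1 / (4 * 2 ^ (k + 1)) := by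
    apply xp_short (m := m) pc_nonneg pc_le_one (l := L - 1) (r := rr m) (k := k + 1)
      (n := 2 ^ (t + 1)) (by omega) ?_ hx (eps_bound m) ?_
    · have h1 : 2 ^ (k + 1) * (L - 1 - rr m) ≥ 2 ^ (k + 1) * 2 ^ (t - k) :=
        Nat.mul_le_mul_left _ (by omega)
      have h2 : 2 ^ (k + 1) * 2 ^ (t - k) = 2 ^ (t + 1) := by
        rw [← pow_add]; congr 1; omega
      omega
    · have h3 : (1 : ℝ) / (4 * 2 ^ (k + 1)) = (1 / 2) ^ (k + 3) := by
        rw [one_div_pow, pow_add, pow_add]; norm_num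
        ring
      rw [h3]
      exact pow_le_pow_of_le_one (by norm_num) (by norm_num) hkm
  have hd := harris_dec_forall (p := pc) pc_nonneg pc_le_one (Finset.range (2 ^ k))
    (fun (s : ℕ) (ω : Ix (2 ^ (t + 1)) m → Bool) =>
      ¬ Cross ((s : ℤ) * (L : ℕ)) ((s : ℤ) * (L : ℕ) + (L - 1 : ℕ)) (lift ω))
    (fun s => (inc_cross _ _).not)
  have hone : 1 ≤ 2 ^ k := Nat.one_le_two_pow
  have hLpos : 1 ≤ L := Nat.one_le_two_pow
  have hLle : L ≤ 2 ^ (t + 1) := by rw [hLN]; exact Nat.le_mul_of_pos_left _ (by omega)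
  have heach : ∀ s ∈ Finset.range (2 ^ k), (1 / (4 * 2 ^ (k + 1)) : ℝ) ≤
      Pr pc (fun (ω : Ix (2 ^ (t + 1)) m → Bool) =>
      ¬ Cross ((s : ℤ) * (L : ℕ)) ((s : ℤ) * (L : ℕ) + (L - 1 : ℕ)) (lift ω)) := by
    intro s _
    have h5 := PN_cross_eq (N := 2 ^ (t + 1)) (m := m) (p := pc) (l := L - 1) (by omega)
      ((s : ℤ) * (L : ℕ))
    rw [Pr_not]
    unfold PN at h5
    rw [h5]
    linarith
  refine le_trans ?_ hd
  calc (1 / (4 * 2 ^ (k + 1)) : ℝ) ^ (2 ^ k)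
      = ∏ s ∈ Finset.range (2 ^ k), (1 / (4 * 2 ^ (k + 1)) : ℝ) := by simp
    _ ≤ _ := Finset.prod_le_prod (fun _ _ => by positivity) heach

end Pool.Agent.W_MP_6e7106_pr
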