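import Pool.Agent.W_MP_6e7106_pr.Defs
import Pool.Agent.W_MP_6e7106_pr.Threshold

/-!
# The discrete torus as a graph
-/

namespace Pool.Agent.W_MP_6e7106_pr

set_option linter.unusedSectionVars false
set_option linter.style.haveILetI false

section Transfer

/-- graph of open edges -/
def openG {V ι : Type} (τ : ι → Sym2 V) (ω : ι → Bool) : SimpleGraph V :=
  SimpleGraph.fromEdgeSet {e | ∃ i, ω i = true ∧ τ i = e}

lemma wt_eq {ι : Type} [Fintype ι] [DecidableEq ι] (p : ℝ) (ω : ι → Bool) :
    wt p ω = p ^ (Finset.univ.filter (fun i => ω i = true)).card *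
      (1 - p) ^ (Fintype.card ι - (Finset.univ.filter (fun i => ω i = true)).card) := by
  unfold wt
  rw [Finset.prod_ite, Finset.prod_const, Finset.prod_const]
  congr 2
  have := Finset.card_filter_add_card_filter_not (s := (Finset.univ : Finset ι))
    (fun i => ω i = true)
  rw [Finset.card_univ] at this
  omega

lemma percProb_eq {V ι : Type} [Fintype V] [Fintype ι] [DecidableEq ι] (G : SimpleGraph V)
    (τ : ι → Sym2 V) (hτ : Function.Injective τ) (hr : Set.range τ = G.edgeSet) (p : ℝ)
    (A : SimpleGraph V → Prop) :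
    percProb G p A = Pr p (fun ω : ι → Bool => A (openG τ ω)) := by
  classical
  have hE : G.edgeFinset = Finset.univ.image τ := by
    ext e
    rw [SimpleGraph.mem_edgeFinset, ← hr]
    simp
  have hcard : G.edgeFinset.card = Fintype.card ι := by
    rw [hE, Finset.card_image_of_injective _ hτ, Finset.card_univ]
  unfold percProb Pr
  symm
  refine Finset.sum_nbij' (fun ω : ι → Bool => (Finset.univ.filter (fun i => ω i = true)).image τ)
    (fun S : Finset (Sym2 V) => fun i => decide (τ i ∈ S)) ?_ ?_ ?_ ?_ ?_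
  · intro ω _
    rw [Finset.mem_powerset, hE]
    exact Finset.image_subset_image (Finset.filter_subset _ _)
  · intro S _
    exact Finset.mem_univ _
  · intro ω _
    funext i
    simp [hτ.eq_iff]
  · intro S hS
    rw [Finset.mem_powerset, hE] at hS
    ext e
    simp only [decide_eq_true_eq, Finset.mem_image, Finset.mem_filter, Finset.mem_univ, true_and]
    constructor
    · rintro ⟨i, hi, rfl⟩
      exact hi
    · intro he
      obtain ⟨i, _, rfl⟩ := Finset.mem_image.mp (hS he)
      exact ⟨i, he, rfl⟩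
  · intro ω _
    have h1 : openG τ ω = SimpleGraph.fromEdgeSet
        (((Finset.univ.filter (fun i => ω i = true)).image τ : Finset (Sym2 V)) :
          Set (Sym2 V)) := by
      unfold openG
      congr 1
      ext e
      simp
    show (if A (openG τ ω) then wt p ω else 0) = _
    rw [h1, wt_eq, hcard, Finset.card_image_of_injective _ hτ]

end Transfer

/-- the discrete torus -/
def torus (N m : ℕ) : SimpleGraph (ZMod N × ZMod m) where
  Adj x y := x ≠ y ∧ ((x.1 = y.1 ∧ (y.2 = x.2 + 1 ∨ x.2 = y.2 + 1)) ∨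
    (x.2 = y.2 ∧ (y.1 = x.1 + 1 ∨ x.1 = y.1 + 1)))
  symm := ⟨by
    rintro x y ⟨h, h1 | h1⟩
    · exact ⟨h.symm, Or.inl ⟨h1.1.symm, h1.2.symm⟩⟩
    · exact ⟨h.symm, Or.inr ⟨h1.1.symm, h1.2.symm⟩⟩⟩
  loopless := ⟨fun _ h => h.1 rfl⟩

/-- enumeration of the edges of the torus -/
def tau (N m : ℕ) : Ix N m → Sym2 (ZMod N × ZMod m) := fun e =>
  if e.1 then s((e.2.1, e.2.2), (e.2.1 + 1, e.2.2)) else s((e.2.1, e.2.2), (e.2.1, e.2.2 + 1))

lemma one_ne_zero_zmod {n : ℕ} (hn : 3 ≤ n) : (1 : ZMod n) ≠ 0 := by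
  have : Fact (1 < n) := ⟨by omega⟩
  exact one_ne_zero

lemma two_ne_zero_zmod {n : ℕ} (hn : 3 ≤ n) : (1 : ZMod n) + 1 ≠ 0 := by
  intro h
  have h2 : ((2 : ℕ) : ZMod n) = 0 := by push_cast; rw [← h]; norm_num
  rw [ZMod.natCast_eq_zero_iff] at h2
  have := Nat.le_of_dvd (by norm_num) h2
  omega

lemma tau_injective {N m : ℕ} (hN : 3 ≤ N) (hm : 3 ≤ m) : Function.Injective (tau N m) := by
  have n1 := one_ne_zero_zmod hN
  have m1 := one_ne_zero_zmod hm
  have n2 := two_ne_zero_zmod hN
  have m2 := two_ne_zero_zmod hm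
  rintro ⟨b, i, j⟩ ⟨b', i', j'⟩ h
  cases b <;> cases b' <;> simp only [tau, Bool.false_eq_true, if_false, if_true, Sym2.eq_iff,
    Prod.mk.injEq] at h
  · rcases h with ⟨⟨h1, h2⟩, _⟩ | ⟨⟨h1, h2⟩, ⟨h3, h4⟩⟩
    · simp [h1, h2]
    · exfalso
      apply m2
      have : j' + 1 + 1 = j' := by rw [← h2]; exact h4
      have h5 : j' + (1 + 1) = j' + 0 := by rw [add_zero, ← add_assoc]; exact this
      exact add_left_cancel h5
  · exfalso
    rcases h with ⟨⟨h1, h2⟩, h3, h4⟩ | ⟨⟨h1, h2⟩, ⟨h3, h4⟩⟩
    · apply n1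
      have h5 : i' + 1 = i' + 0 := by rw [add_zero, ← h3, h1]
      exact add_left_cancel h5
    · apply m1
      have h5 : j' + 1 = j' + 0 := by rw [add_zero, ← h2]; rw [h4, h2]
      exact add_left_cancel h5
  · exfalso
    rcases h with ⟨⟨h1, h2⟩, h3, h4⟩ | ⟨⟨h1, h2⟩, ⟨h3, h4⟩⟩
    · apply n1
      have h5 : i' + 1 = i' + 0 := by rw [add_zero]; rw [h1] at h3; exact h3
      exact add_left_cancel h5
    · apply m1
      have h5 : j' + 1 = j' + 0 := by rw [add_zero, ← h2, h4]
      exact add_left_cancel h5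
  · rcases h with ⟨⟨h1, h2⟩, _⟩ | ⟨⟨h1, h2⟩, ⟨h3, h4⟩⟩
    · simp [h1, h2]
    · exfalso
      apply n2
      have : i' + 1 + 1 = i' := by rw [← h1]; exact h3
      have h5 : i' + (1 + 1) = i' + 0 := by rw [add_zero, ← add_assoc]; exact this
      exact add_left_cancel h5

lemma range_tau {N m : ℕ} (hN : 3 ≤ N) (hm : 3 ≤ m) :
    Set.range (tau N m) = (torus N m).edgeSet := by
  have n1 := one_ne_zero_zmod hN
  have m1 := one_ne_zero_zmod hm
  ext e
  induction e using Sym2.ind with
  | _ x y =>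
  rw [SimpleGraph.mem_edgeSet]
  constructor
  · rintro ⟨⟨b, i, j⟩, h⟩
    cases b <;> simp only [tau, Bool.false_eq_true, if_false, if_true, Sym2.eq_iff] at h
    · rcases h with ⟨rfl, rfl⟩ | ⟨rfl, rfl⟩
      · refine ⟨?_, Or.inl ⟨rfl, Or.inl rfl⟩⟩
        intro h
        apply m1
        have : j + 0 = j + 1 := by rw [add_zero]; exact (Prod.ext_iff.mp h).2
        exact (add_left_cancel this).symm
      · refine ⟨?_, Or.inl ⟨rfl, Or.inr rfl⟩⟩
        intro h
        apply m1
        have : j + 1 = j + 0 := by rw [add_zero]; exact (Prod.ext_iff.mp h).2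
        exact (add_left_cancel this)
    · rcases h with ⟨rfl, rfl⟩ | ⟨rfl, rfl⟩
      · refine ⟨?_, Or.inr ⟨rfl, Or.inl rfl⟩⟩
        intro h
        apply n1
        have : i + 0 = i + 1 := by rw [add_zero]; exact (Prod.ext_iff.mp h).1
        exact (add_left_cancel this).symm
      · refine ⟨?_, Or.inr ⟨rfl, Or.inr rfl⟩⟩
        intro h
        apply n1
        have : i + 1 = i + 0 := by rw [add_zero]; exact (Prod.ext_iff.mp h).1
        exact (add_left_cancel this)
  · rintro ⟨_, ⟨h1, h2 | h2⟩ | ⟨h1, h2 | h2⟩⟩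
    · refine ⟨(false, x.1, x.2), ?_⟩
      simp only [tau, Bool.false_eq_true, if_false, Sym2.eq_iff]
      left
      exact ⟨trivial, Prod.ext h1 h2.symm⟩
    · refine ⟨(false, y.1, y.2), ?_⟩
      simp only [tau, Bool.false_eq_true, if_false, Sym2.eq_iff]
      right
      exact ⟨trivial, Prod.ext h1.symm h2.symm⟩
    · refine ⟨(true, x.1, x.2), ?_⟩
      simp only [tau, if_true, Sym2.eq_iff]
      left
      exact ⟨trivial, Prod.ext h2.symm h1⟩
    · refine ⟨(true, y.1, y.2), ?_⟩
      simp only [tau, if_true, Sym2.eq_iff]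
      right
      exact ⟨trivial, Prod.ext h2.symm h1.symm⟩

lemma torus_regular {N m : ℕ} (hN : 3 ≤ N) (hm : 3 ≤ m) (v : ZMod N × ZMod m) :
    ((torus N m).neighborSet v).ncard = 4 := by
  have n1 := one_ne_zero_zmod hN
  have m1 := one_ne_zero_zmod hm
  have n2 := two_ne_zero_zmod hN
  have m2 := two_ne_zero_zmod hm
  have h : (torus N m).neighborSet v =
      {(v.1, v.2 + 1), (v.1, v.2 - 1), (v.1 + 1, v.2), (v.1 - 1, v.2)} := by
    ext y
    simp only [SimpleGraph.mem_neighborSet, Set.mem_insert_iff, Set.mem_singleton_iff]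
    constructor
    · rintro ⟨_, ⟨h1, h2 | h2⟩ | ⟨h1, h2 | h2⟩⟩
      · exact Or.inl (Prod.ext h1.symm h2)
      · exact Or.inr (Or.inl (Prod.ext h1.symm (by rw [h2]; simp)))
      · exact Or.inr (Or.inr (Or.inl (Prod.ext h2 h1.symm)))
      · exact Or.inr (Or.inr (Or.inr (Prod.ext (by rw [h2]; simp) h1.symm)))
    · rintro (rfl | rfl | rfl | rfl)
      · refine ⟨?_, Or.inl ⟨rfl, Or.inl rfl⟩⟩
        intro h
        apply m1
        have := (Prod.ext_iff.mp h).2
        simpa using this.symm
      · refine ⟨?_, Or.inl ⟨rfl, Or.inr (by simp)⟩⟩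
        intro h
        apply m1
        have := (Prod.ext_iff.mp h).2
        simp only at this
        have h5 : v.2 + 1 = v.2 + 0 := by
          rw [add_zero]; nth_rewrite 1 [this]; simp
        exact add_left_cancel h5
      · refine ⟨?_, Or.inr ⟨rfl, Or.inl rfl⟩⟩
        intro h
        apply n1
        have := (Prod.ext_iff.mp h).1
        simpa using this.symm
      · refine ⟨?_, Or.inr ⟨rfl, Or.inr (by simp)⟩⟩
        intro h
        apply n1
        have := (Prod.ext_iff.mp h).1
        simp only at this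
        have h5 : v.1 + 1 = v.1 + 0 := by
          rw [add_zero]; nth_rewrite 1 [this]; simp
        exact add_left_cancel h5
  rw [h]
  have d2 : ∀ {n : ℕ} (a : ZMod n), (1 : ZMod n) + 1 ≠ 0 → a + 1 ≠ a - 1 := by
    intro n a hn h
    apply hn
    have : a + 1 - (a - 1) = 0 := sub_eq_zero.mpr h
    rw [← this]; ring
  have d1 : ∀ {n : ℕ} (a : ZMod n), (1 : ZMod n) ≠ 0 → a ≠ a + 1 := by
    intro n a hn h
    apply hn
    simpa using h.symm
  have d1' : ∀ {n : ℕ} (a : ZMod n), (1 : ZMod n) ≠ 0 → a ≠ a - 1 := by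
    intro n a hn h
    apply hn
    have : a - (a - 1) = 0 := sub_eq_zero.mpr h
    rw [← this]; ring
  rw [Set.ncard_insert_of_notMem, Set.ncard_insert_of_notMem, Set.ncard_insert_of_notMem,
    Set.ncard_singleton]
  · simp only [Set.mem_singleton_iff]
    intro h
    exact d2 v.1 n2 (Prod.ext_iff.mp h).1
  · simp only [Set.mem_insert_iff, Set.mem_singleton_iff, not_or]
    exact ⟨fun h => d1 v.1 n1 (Prod.ext_iff.mp h).1, fun h => d1' v.1 n1 (Prod.ext_iff.mp h).1⟩
  · simp only [Set.mem_insert_iff, Set.mem_singleton_iff, not_or]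
    exact ⟨fun h => d2 v.2 m2 (Prod.ext_iff.mp h).2, fun h => d1 v.1 n1 (Prod.ext_iff.mp h).1,
      fun h => d1' v.1 n1 (Prod.ext_iff.mp h).1⟩

/-- translations -/
def transl (N m : ℕ) (s : ZMod N × ZMod m) : torus N m ≃g torus N m where
  toEquiv := Equiv.addRight s
  map_rel_iff' := by
    intro x y
    simp only [torus, Equiv.coe_addRight, Prod.fst_add, Prod.snd_add, ne_eq, add_left_inj]
    have e1 : ∀ {n : ℕ} (a b c : ZMod n), a + c = b + c + 1 ↔ a = b + 1 := by
      intro n a b c
      rw [add_right_comm, add_left_inj]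
    rw [e1, e1, e1, e1]

lemma torus_transitive (N m : ℕ) : IsTransitive (torus N m) := by
  intro u v
  refine ⟨transl N m (v - u), ?_⟩
  simp [transl]

/-- horizontal walks -/
lemma walk_h {N m : ℕ} (hN : 3 ≤ N) (x : ZMod N × ZMod m) (k : ℕ) (s : ℤ) (hs : s = 1 ∨ s = -1) :
    ∃ w : (torus N m).Walk x (x.1 + ((s * k : ℤ) : ZMod N), x.2), w.length = k := by
  have n1 := one_ne_zero_zmod hN
  induction k with
  | zero =>
    have : (x.1 + ((s * (0 : ℕ) : ℤ) : ZMod N), x.2) = x := by simp
    rw [this]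
    exact ⟨SimpleGraph.Walk.nil, rfl⟩
  | succ k ih =>
    obtain ⟨w, hw⟩ := ih
    have hadj : (torus N m).Adj (x.1 + ((s * k : ℤ) : ZMod N), x.2)
        (x.1 + ((s * (k + 1 : ℕ) : ℤ) : ZMod N), x.2) := by
      refine ⟨?_, Or.inr ⟨rfl, ?_⟩⟩
      · intro h
        have h1 := (Prod.ext_iff.mp h).1
        simp only [add_right_inj] at h1
        apply n1
        rcases hs with rfl | rfl
        · push_cast at h1
          simp only [one_mul] at h1
          have : (k : ZMod N) + 0 = k + 1 := by rw [add_zero]; exact h1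
          exact (add_left_cancel this).symm
        · push_cast at h1
          simp only [neg_mul, one_mul, neg_inj] at h1
          have : (k : ZMod N) + 0 = k + 1 := by rw [add_zero]; exact h1
          exact (add_left_cancel this).symm
      · rcases hs with rfl | rfl
        · left; push_cast; ring
        · right; push_cast; ring
    exact ⟨w.concat hadj, by rw [SimpleGraph.Walk.length_concat, hw]⟩

lemma walk_v {N m : ℕ} (hm : 3 ≤ m) (x : ZMod N × ZMod m) (k : ℕ) (s : ℤ) (hs : s = 1 ∨ s = -1) :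
    ∃ w : (torus N m).Walk x (x.1, x.2 + ((s * k : ℤ) : ZMod m)), w.length = k := by
  have n1 := one_ne_zero_zmod hm
  induction k with
  | zero =>
    have : (x.1, x.2 + ((s * (0 : ℕ) : ℤ) : ZMod m)) = x := by simp
    rw [this]
    exact ⟨SimpleGraph.Walk.nil, rfl⟩
  | succ k ih =>
    obtain ⟨w, hw⟩ := ih
    have hadj : (torus N m).Adj (x.1, x.2 + ((s * k : ℤ) : ZMod m))
        (x.1, x.2 + ((s * (k + 1 : ℕ) : ℤ) : ZMod m)) := by
      refine ⟨?_, Or.inl ⟨rfl, ?_⟩⟩
      · intro h
        have h1 := (Prod.ext_iff.mp h).2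
        simp only [add_right_inj] at h1
        apply n1
        rcases hs with rfl | rfl
        · push_cast at h1
          simp only [one_mul] at h1
          have : (k : ZMod m) + 0 = k + 1 := by rw [add_zero]; exact h1
          exact (add_left_cancel this).symm
        · push_cast at h1
          simp only [neg_mul, one_mul, neg_inj] at h1
          have : (k : ZMod m) + 0 = k + 1 := by rw [add_zero]; exact h1
          exact (add_left_cancel this).symm
      · rcases hs with rfl | rfl
        · left; push_cast; ring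
        · right; push_cast; ring
    exact ⟨w.concat hadj, by rw [SimpleGraph.Walk.length_concat, hw]⟩

lemma int_sign (s : ℤ) : ∃ e : ℤ, (e = 1 ∨ e = -1) ∧ s = e * (s.natAbs : ℤ) := by
  rcases Int.natAbs_eq s with h | h
  · exact ⟨1, Or.inl rfl, by rw [one_mul]; exact h⟩
  · exact ⟨-1, Or.inr rfl, by rw [neg_mul, one_mul]; exact h⟩

lemma exists_walk {N m : ℕ} [NeZero N] [NeZero m] (hN : 3 ≤ N) (hm : 3 ≤ m)
    (x y : ZMod N × ZMod m) : ∃ w : (torus N m).Walk x y, w.length ≤ N / 2 + m / 2 := by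
  obtain ⟨e, he, he'⟩ := int_sign (y.1 - x.1).valMinAbs
  obtain ⟨f, hf, hf'⟩ := int_sign (y.2 - x.2).valMinAbs
  obtain ⟨w1, hw1⟩ := walk_h (m := m) hN x (y.1 - x.1).valMinAbs.natAbs e he
  obtain ⟨w2, hw2⟩ := walk_v (N := N) hm
    (x.1 + ((e * ((y.1 - x.1).valMinAbs.natAbs : ℤ) : ℤ) : ZMod N), x.2)
    (y.2 - x.2).valMinAbs.natAbs f hf
  have hy : y = (x.1 + ((e * ((y.1 - x.1).valMinAbs.natAbs : ℤ) : ℤ) : ZMod N),
      x.2 + ((f * ((y.2 - x.2).valMinAbs.natAbs : ℤ) : ℤ) : ZMod m)) := by
    rw [← he', ← hf', ZMod.coe_valMinAbs, ZMod.coe_valMinAbs]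
    apply Prod.ext <;> simp
  rw [hy]
  refine ⟨w1.append w2, ?_⟩
  rw [SimpleGraph.Walk.length_append, hw1, hw2]
  exact Nat.add_le_add (ZMod.natAbs_valMinAbs_le _) (ZMod.natAbs_valMinAbs_le _)

lemma torus_connected {N m : ℕ} [NeZero N] [NeZero m] (hN : 3 ≤ N) (hm : 3 ≤ m) :
    (torus N m).Connected := by
  have : Nonempty (ZMod N × ZMod m) := ⟨(0, 0)⟩
  refine ⟨fun x y => ?_⟩
  obtain ⟨w, _⟩ := exists_walk hN hm x y
  exact ⟨w⟩

lemma torus_diam_le {N m : ℕ} [NeZero N] [NeZero m] (hN : 3 ≤ N) (hm : 3 ≤ m) :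
    (torus N m).diam ≤ N / 2 + m / 2 := by
  have h : (torus N m).ediam ≤ ((N / 2 + m / 2 : ℕ) : ℕ∞) := by
    apply SimpleGraph.ediam_le_of_edist_le
    intro u v
    obtain ⟨w, hw⟩ := exists_walk hN hm u v
    exact (SimpleGraph.Walk.edist_le w).trans (by exact_mod_cast hw)
  unfold SimpleGraph.diam
  exact ENat.toNat_le_of_le_natCast h

/-- displacement of a walk in the torus -/
lemma walk_disp {N m : ℕ} {x y : ZMod N × ZMod m} (w : (torus N m).Walk x y) :
    ∃ s : ℤ, |s| ≤ w.length ∧ y.1 = x.1 + (s : ZMod N) := by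
  induction w with
  | nil => exact ⟨0, by simp, by simp⟩
  | cons h w ih =>
    rename_i x y z
    obtain ⟨s, hs, hs'⟩ := ih
    have h' := h
    obtain ⟨_, ⟨h1, h2⟩ | ⟨h1, h2 | h2⟩⟩ := h'
    · refine ⟨s, ?_, by rw [hs', h1]⟩
      rw [SimpleGraph.Walk.length_cons]; push_cast; omega
    · refine ⟨s + 1, ?_, by rw [hs', h2]; push_cast; ring⟩
      rw [SimpleGraph.Walk.length_cons, abs_le] at *
      push_cast
      omega
    · refine ⟨s - 1, ?_, by rw [hs', h2]; push_cast; ring⟩
      rw [SimpleGraph.Walk.length_cons, abs_le] at *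
      push_cast
      omega

lemma dist_lower {N m : ℕ} [NeZero N] [NeZero m] (hN : 3 ≤ N) (hm : 3 ≤ m)
    {x y : ZMod N × ZMod m} (h : y.1 = x.1 + ((N / 2 : ℕ) : ZMod N)) :
    N / 2 ≤ (torus N m).dist x y := by
  obtain ⟨w, hw⟩ := ((torus_connected hN hm).preconnected x y).exists_walk_length_eq_dist
  obtain ⟨s, hs, hs'⟩ := walk_disp w
  rw [← hw]
  have h1 : ((N / 2 : ℕ) : ZMod N) = 0 + (s : ZMod N) := by
    rw [zero_add]
    rw [h] at hs'
    exact add_left_cancel hs'
  have h2 := half_bound h1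
  have h3 : ((N / 2 : ℕ) : ℤ) ≤ w.length := h2.trans hs
  exact_mod_cast h3

/-- from a path in the periodic lift to a path in the torus, with a translation -/
lemma reachable_of_conn {N m : ℕ} {ω : Ix N m → Bool} {c : ZMod N} {d : ZMod m} {a b : ℤ}
    {x y : Vx m} (hN : 3 ≤ N) (hm : 3 ≤ m)
    (h : Conn (lift (fun i : Ix N m => ω (i.1, i.2.1 + c, i.2.2 + d))) a b x y) :
    (openG (tau N m) ω).Reachable ((x.1 : ZMod N) + c, x.2 + d) ((y.1 : ZMod N) + c, y.2 + d) := by
  have n1 := one_ne_zero_zmod hN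
  have m1 := one_ne_zero_zmod hm
  induction h with
  | refl => exact SimpleGraph.Reachable.refl _
  | tail hfoo h2 ih =>
    rename_i y z
    refine ih.trans (SimpleGraph.Adj.reachable ?_)
    have key : ∀ u v : Vx m, (∃ e : Ed m, lift (fun i : Ix N m =>
        ω (i.1, i.2.1 + c, i.2.2 + d)) e = true ∧ u = hd e ∧ v = tl e) →
        (openG (tau N m) ω).Adj ((u.1 : ZMod N) + c, u.2 + d) ((v.1 : ZMod N) + c, v.2 + d) := by
      rintro u v ⟨⟨b, i, j⟩, he, rfl, rfl⟩
      simp only [lift] at he
      rw [openG, SimpleGraph.fromEdgeSet_adj]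
      refine ⟨⟨_, he, ?_⟩, ?_⟩
      · cases b
        · simp only [tau, hd, tl, Bool.false_eq_true, if_false]
          rw [add_right_comm j 1 d]
        · simp only [tau, hd, tl, if_true]
          rw [Int.cast_add, Int.cast_one, add_right_comm (i : ZMod N) 1 c]
      · intro h
        cases b
        · simp only [hd, tl, Bool.false_eq_true, if_false, Prod.mk.injEq, true_and] at h
          apply m1
          have h5 : (j + d) + 0 = (j + d) + 1 := by rw [add_zero]; nth_rewrite 1 [h]; ring
          exact (add_left_cancel h5).symm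
        · simp only [hd, tl, if_true, Prod.mk.injEq, and_true] at h
          apply n1
          push_cast at h
          have h5 : ((i : ZMod N) + c) + 0 = (i + c) + 1 := by
            rw [add_zero]; nth_rewrite 1 [h]; ring
          exact (add_left_cancel h5).symm
    obtain ⟨_, _, _, _, e, he, h5⟩ := h2
    rcases h5 with ⟨h6, h7⟩ | ⟨h6, h7⟩
    · exact key y z ⟨e, he, h6, h7⟩
    · exact (key z y ⟨e, he, h7, h6⟩).symm

/-- lower bound for the probability in the hypothesis -/
lemma hyp_of_reach {N m T : ℕ} [NeZero N] [NeZero m] (hN : 3 ≤ N) (hm : 3 ≤ m) (hNT : N = 2 * T)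
    (hmT : m ≤ T) (v : ZMod N × ZMod m) :
    PN N m pc (Reach T) ≤ percProb (torus N m) pc
      (fun H => InLargeDiameterComponent (torus N m) H v) := by
  rw [percProb_eq _ (tau _ m) (tau_injective hN hm) (range_tau hN hm)]
  have hhalf : N / 2 = T := by omega
  obtain ⟨c, d⟩ := v
  let f : Ix N m → Ix N m := fun i => (i.1, i.2.1 + c, i.2.2 + d)
  have hf : Function.Injective f := by
    rintro ⟨b, i, j⟩ ⟨b', i', j'⟩ h
    simp only [f, Prod.mk.injEq, add_left_inj] at h
    obtain ⟨h1, h2, h3⟩ := h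
    rw [h1, h2, h3]
  have h1 := Pr_comp_injective (p := pc) hf (fun ω : Ix N m → Bool => Reach T (lift ω))
  unfold PN
  rw [← h1]
  apply Pr_mono pc_nonneg pc_le_one
  rintro ω ⟨y, hy, hc⟩
  have hc' := reachable_of_conn (c := c) (d := d) hN hm hc
  refine ⟨(c, d), ((y.1 : ZMod N) + c, y.2 + d), SimpleGraph.Reachable.refl _, ?_, ?_⟩
  · simpa using hc'
  · have hy1 : ((y.1 : ZMod N) + c, y.2 + d).1 = (c, d).1 + ((N / 2 : ℕ) : ZMod N) := by
      simp only
      rw [hhalf, add_comm]
      congr 1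
      rcases hy with hy | hy
      · rw [hy]; push_cast; rfl
      · rw [hy]
        have h5 : ((T : ℕ) : ZMod N) + ((T : ℕ) : ZMod N) = 0 := by
          have : ((N : ℕ) : ZMod N) = 0 := ZMod.natCast_self N
          rw [← this, ← Nat.cast_add]
          congr 1
          omega
        push_cast
        exact (eq_neg_of_add_eq_zero_left h5).symm
    have h6 := dist_lower hN hm hy1
    have h7 := torus_diam_le (N := N) hN hm
    have h8 : (torus N m).diam ≤ 2 * (torus N m).dist (c, d) ((y.1 : ZMod N) + c, y.2 + d) := by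
      omega
    have h9 : ((torus N m).diam : ℝ) ≤
        2 * ((torus N m).dist (c, d) ((y.1 : ZMod N) + c, y.2 + d) : ℝ) := by
      exact_mod_cast h8
    linarith

/-! ### No giant component when all blocks are uncrossed -/

section Blocks

variable {N m K L : ℕ} [NeZero N] [NeZero m] [NeZero K]

/-- the vertex is connected, inside its block, to the left column of the block -/
def InU (L : ℕ) (η : Ed m → Bool) (x : ZMod N × ZMod m) : Prop :=
  ∃ z : Vx m, z.1 = ((x.1.val / L * L : ℕ) : ℤ) ∧
    Conn η ((x.1.val / L * L : ℕ) : ℤ) ((x.1.val / L * L + (L - 1) : ℕ) : ℤ) z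
      ((x.1.val : ℤ), x.2)

open Classical in
/-- region index -/
noncomputable def reg (K L : ℕ) (η : Ed m → Bool) (x : ZMod N × ZMod m) : ZMod K :=
  if InU L η x then ((x.1.val / L : ℕ) : ZMod K) else ((x.1.val / L : ℕ) : ZMod K) + 1

lemma reg_vertical (hL : 0 < L) {ω : Ix N m → Bool} {i : ZMod N} {j : ZMod m}
    (h : ω (false, i, j) = true) :
    reg K L (lift ω) (i, j) = reg K L (lift ω) (i, j + 1) := by
  classical
  have hmod : i.val = i.val / L * L + i.val % L := (Nat.div_add_mod' _ _).symm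
  have hlt := Nat.mod_lt i.val hL
  have hstep : Step (lift ω) ((i.val / L * L : ℕ) : ℤ) ((i.val / L * L + (L - 1) : ℕ) : ℤ)
      ((i.val : ℤ), j) ((i.val : ℤ), j + 1) := by
    refine ⟨?_, ?_, ?_, ?_, (false, (i.val : ℤ), j), ?_, Or.inl ⟨rfl, rfl⟩⟩
    · simp only; omega
    · simp only; omega
    · simp only; omega
    · simp only; omega
    · simp only [lift]
      have : (((i.val : ℕ) : ℤ) : ZMod N) = i := by push_cast; exact ZMod.natCast_zmod_val i
      rw [this]
      exact h
  have hiff : InU L (lift ω) (i, j) ↔ InU L (lift ω) (i, j + 1) := by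
    constructor
    · rintro ⟨z, hz, hz'⟩
      exact ⟨z, hz, Relation.ReflTransGen.tail hz' hstep⟩
    · rintro ⟨z, hz, hz'⟩
      exact ⟨z, hz, Relation.ReflTransGen.tail hz' hstep.symm⟩
  unfold reg
  simp only [hiff]

lemma val_add_one_lt {i : ZMod N} (h : i.val + 1 < N) : (i + 1).val = i.val + 1 := by
  have hN : 1 < N := by omega
  have : Fact (1 < N) := ⟨hN⟩
  rw [ZMod.val_add, ZMod.val_one, Nat.mod_eq_of_lt h]

lemma val_add_one_eq {i : ZMod N} (h : i.val + 1 = N) : (i + 1).val = 0 := by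
  rcases Nat.lt_or_ge 1 N with hN | hN
  · haveI : Fact (1 < N) := ⟨hN⟩
    rw [ZMod.val_add, ZMod.val_one, h, Nat.mod_self]
  · have hN1 : N = 1 := by
      have := NeZero.pos N
      omega
    subst hN1
    have := ZMod.val_lt (i + 1)
    omega

lemma reg_horizontal (hL : 0 < L) (hNK : N = K * L) {ω : Ix N m → Bool}
    (hblocks : ∀ s ∈ Finset.range K, ¬ Cross ((s : ℤ) * (L : ℕ))
        ((s : ℤ) * (L : ℕ) + (L - 1 : ℕ)) (lift ω))
    {i : ZMod N} {j : ZMod m} (h : ω (true, i, j) = true) :
    reg K L (lift ω) (i, j) = reg K L (lift ω) (i + 1, j) := by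
  classical
  have hmod : i.val = i.val / L * L + i.val % L := (Nat.div_add_mod' _ _).symm
  have hlt := Nat.mod_lt i.val hL
  have hiN := ZMod.val_lt i
  have hcast : (((i.val : ℕ) : ℤ) : ZMod N) = i := by push_cast; exact ZMod.natCast_zmod_val i
  have hsK : i.val / L < K := by
    rw [Nat.div_lt_iff_lt_mul hL, ← hNK]
    exact hiN
  by_cases hend : i.val % L = L - 1
  · -- right column of the block
    have hnotU : ¬ InU L (lift ω) (i, j) := by
      rintro ⟨z, hz, hz'⟩
      apply hblocks (i.val / L) (Finset.mem_range.mpr hsK)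
      refine ⟨z, ((i.val : ℤ), j), ?_, ?_, ?_⟩
      · rw [hz]; push_cast; ring
      · simp only
        have : ((i.val : ℕ) : ℤ) = ((i.val / L * L + (L - 1) : ℕ) : ℤ) := by omega
        rw [this]; push_cast; ring
      · have e1 : ((i.val / L : ℕ) : ℤ) * (L : ℕ) = ((i.val / L * L : ℕ) : ℤ) := by push_cast; ring
        have e2 : ((i.val / L : ℕ) : ℤ) * (L : ℕ) + (L - 1 : ℕ) =
            ((i.val / L * L + (L - 1) : ℕ) : ℤ) := by push_cast; ring
        rw [e2, e1]
        exact hz'
    have hU : InU L (lift ω) (i + 1, j) := by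
      refine ⟨(((i + 1).val : ℤ), j), ?_, Relation.ReflTransGen.refl⟩
      simp only
      rcases Nat.lt_or_ge (i.val + 1) N with h1 | h1
      · rw [val_add_one_lt h1]
        have h2 : i.val + 1 = (i.val / L + 1) * L := by
          rw [add_mul, one_mul]; omega
        rw [h2, Nat.mul_div_cancel _ hL]
      · have h2 : i.val + 1 = N := by omega
        rw [val_add_one_eq h2]
        simp
    unfold reg
    rw [if_neg hnotU, if_pos hU]
    simp only
    rcases Nat.lt_or_ge (i.val + 1) N with h1 | h1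
    · rw [val_add_one_lt h1]
      have h2 : i.val + 1 = (i.val / L + 1) * L := by
        rw [add_mul, one_mul]; omega
      rw [h2, Nat.mul_div_cancel _ hL]
      push_cast
      rfl
    · have h2 : i.val + 1 = N := by omega
      rw [val_add_one_eq h2]
      have h3 : i.val + 1 = (i.val / L + 1) * L := by
        rw [add_mul, one_mul]; omega
      have h4 : i.val / L + 1 = K := by
        have : (i.val / L + 1) * L = K * L := by rw [← h3, h2, hNK]
        exact Nat.eq_of_mul_eq_mul_right hL this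
      have h5 : ((i.val / L : ℕ) : ZMod K) + 1 = ((i.val / L + 1 : ℕ) : ZMod K) := by
        push_cast; rfl
      rw [h5, h4]
      simp
  · -- inside the block
    have h1 : i.val + 1 < N := by
      have h2 : i.val / L * L + L ≤ N := by
        calc i.val / L * L + L = (i.val / L + 1) * L := by ring
          _ ≤ K * L := Nat.mul_le_mul_right _ hsK
          _ = N := hNK.symm
      omega
    have hval := val_add_one_lt h1
    have hdiv : (i.val + 1) / L = i.val / L := by
      have h3 : i.val + 1 = i.val % L + 1 + i.val / L * L := by omega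
      rw [h3, Nat.add_mul_div_right _ _ hL, Nat.div_eq_of_lt (by omega)]
      simp
    have hstep : Step (lift ω) ((i.val / L * L : ℕ) : ℤ) ((i.val / L * L + (L - 1) : ℕ) : ℤ)
        ((i.val : ℤ), j) (((i.val + 1 : ℕ) : ℤ), j) := by
      refine ⟨?_, ?_, ?_, ?_, (true, (i.val : ℤ), j), ?_, Or.inl ⟨rfl, ?_⟩⟩
      · simp only; omega
      · simp only; omega
      · simp only; omega
      · simp only; omega
      · simp only [lift]
        rw [hcast]
        exact h
      · simp [tl]
    have hiff : InU L (lift ω) (i, j) ↔ InU L (lift ω) (i + 1, j) := by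
      unfold InU
      simp only
      rw [hval, hdiv]
      constructor
      · rintro ⟨z, hz, hz'⟩
        exact ⟨z, hz, Relation.ReflTransGen.tail hz' hstep⟩
      · rintro ⟨z, hz, hz'⟩
        exact ⟨z, hz, Relation.ReflTransGen.tail hz' hstep.symm⟩
    unfold reg
    simp only [hiff, hval, hdiv]

lemma reg_adj (hL : 0 < L) (hNK : N = K * L) {ω : Ix N m → Bool}
    (hblocks : ∀ s ∈ Finset.range K, ¬ Cross ((s : ℤ) * (L : ℕ))
        ((s : ℤ) * (L : ℕ) + (L - 1 : ℕ)) (lift ω))
    {x y : ZMod N × ZMod m} (h : (openG (tau N m) ω).Adj x y) :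
    reg K L (lift ω) x = reg K L (lift ω) y := by
  rw [openG, SimpleGraph.fromEdgeSet_adj] at h
  obtain ⟨⟨⟨b, i, j⟩, hω, he⟩, _⟩ := h
  cases b
  · simp only [tau, Bool.false_eq_true, if_false, Sym2.eq_iff] at he
    rcases he with ⟨rfl, rfl⟩ | ⟨rfl, rfl⟩
    · exact reg_vertical hL hω
    · exact (reg_vertical hL hω).symm
  · simp only [tau, if_true, Sym2.eq_iff] at he
    rcases he with ⟨rfl, rfl⟩ | ⟨rfl, rfl⟩
    · exact reg_horizontal hL hNK hblocks hω
    · exact (reg_horizontal hL hNK hblocks hω).symm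

lemma reg_reachable (hL : 0 < L) (hNK : N = K * L) {ω : Ix N m → Bool}
    (hblocks : ∀ s ∈ Finset.range K, ¬ Cross ((s : ℤ) * (L : ℕ))
        ((s : ℤ) * (L : ℕ) + (L - 1 : ℕ)) (lift ω))
    {x y : ZMod N × ZMod m} (h : (openG (tau N m) ω).Reachable x y) :
    reg K L (lift ω) x = reg K L (lift ω) y := by
  obtain ⟨w⟩ := h
  induction w with
  | nil => rfl
  | cons h _ ih => rw [reg_adj hL hNK hblocks h, ih]

/-- number of vertices of a block -/
lemma block_card (hL : 0 < L) (β : ℕ) :
    (Finset.univ.filter (fun x : ZMod N × ZMod m => x.1.val / L = β)).card ≤ L * m := by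
  classical
  have h : (Finset.univ.filter (fun x : ZMod N × ZMod m => x.1.val / L = β)).card ≤
      (Finset.range L ×ˢ (Finset.univ : Finset (ZMod m))).card := by
    apply Finset.card_le_card_of_injOn (fun x => (x.1.val % L, x.2))
    · intro x _
      simp only [Finset.coe_product, Set.mem_prod, Finset.mem_coe, Finset.mem_range,
        Finset.mem_univ, and_true]
      exact Nat.mod_lt _ hL
    · rintro ⟨i, j⟩ hx ⟨i', j'⟩ hy hxy
      simp only [Finset.coe_filter, Finset.mem_univ, true_and, Set.mem_ofPred_eq] at hx hy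
      simp only [Prod.mk.injEq] at hxy
      have h1 : i.val = i'.val := by
        rw [← Nat.div_add_mod' i.val L, ← Nat.div_add_mod' i'.val L, hx, hy, hxy.1]
      exact Prod.ext (ZMod.val_injective N h1) hxy.2
  simpa [ZMod.card] using h

lemma reg_card (hL : 0 < L) (hNK : N = K * L) (η : Ed m → Bool) (s : ZMod K) :
    {x : ZMod N × ZMod m | reg K L η x = s}.ncard ≤ 2 * (L * m) := by
  classical
  have hsub : {x : ZMod N × ZMod m | reg K L η x = s} ⊆
      ((Finset.univ.filter (fun x : ZMod N × ZMod m => x.1.val / L = s.val) ∪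
        Finset.univ.filter (fun x : ZMod N × ZMod m => x.1.val / L = (s - 1).val) :
          Finset (ZMod N × ZMod m)) : Set (ZMod N × ZMod m)) := by
    intro x hx
    have hx' : reg K L η x = s := hx
    have hlt : x.1.val / L < K := by
      rw [Nat.div_lt_iff_lt_mul hL, ← hNK]
      exact ZMod.val_lt _
    simp only [Finset.coe_union, Finset.coe_filter, Finset.mem_univ, true_and, Set.mem_union,
      Set.mem_ofPred_eq]
    unfold reg at hx'
    split_ifs at hx' with hU
    · left
      rw [← hx', ZMod.val_natCast, Nat.mod_eq_of_lt hlt]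
    · right
      rw [← hx', add_sub_cancel_right, ZMod.val_natCast, Nat.mod_eq_of_lt hlt]
  calc {x : ZMod N × ZMod m | reg K L η x = s}.ncard
      ≤ ((Finset.univ.filter (fun x : ZMod N × ZMod m => x.1.val / L = s.val) ∪
        Finset.univ.filter (fun x : ZMod N × ZMod m => x.1.val / L = (s - 1).val) :
          Finset (ZMod N × ZMod m)) : Set (ZMod N × ZMod m)).ncard :=
        Set.ncard_le_ncard hsub (Set.toFinite _)
    _ ≤ _ := by
        rw [Set.ncard_coe_finset]
        refine (Finset.card_union_le _ _).trans ?_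
        rw [two_mul]
        exact Nat.add_le_add (block_card hL _) (block_card hL _)

/-- when no block is crossed there is no giant component -/
lemma no_giant (hL : 0 < L) (hNK : N = K * L) {C : ℝ} (hC : 2 < C * K) {ω : Ix N m → Bool}
    (hblocks : ∀ s ∈ Finset.range K, ¬ Cross ((s : ℤ) * (L : ℕ))
        ((s : ℤ) * (L : ℕ) + (L - 1 : ℕ)) (lift ω)) :
    ¬ HasComponentOfSize (openG (tau N m) ω) (C * Fintype.card (ZMod N × ZMod m)) := by
  rintro ⟨c, hc⟩
  obtain ⟨x, hx⟩ := c.nonempty_supp
  have hsub : c.supp ⊆ {y : ZMod N × ZMod m | reg K L (lift ω) y = reg K L (lift ω) x} := by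
    intro y hy
    have hxy : (openG (tau N m) ω).Reachable y x := by
      apply SimpleGraph.ConnectedComponent.exact
      rw [SimpleGraph.ConnectedComponent.mem_supp_iff] at hx hy
      rw [hx, hy]
    exact reg_reachable hL hNK hblocks hxy
  have h1 : c.supp.ncard ≤ 2 * (L * m) :=
    (Set.ncard_le_ncard hsub (Set.toFinite _)).trans (reg_card hL hNK _ _)
  have h2 : (c.supp.ncard : ℝ) ≤ 2 * (L * m) := by exact_mod_cast h1
  rw [Fintype.card_prod, ZMod.card, ZMod.card] at hc
  have h3 : ((N * m : ℕ) : ℝ) = K * (L * m) := by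
    rw [hNK]; push_cast; ring
  rw [h3] at hc
  have hm : 0 < m := NeZero.pos m
  have h4 : (0 : ℝ) < L * m := by
    have : 0 < L * m := Nat.mul_pos hL hm
    exact_mod_cast this
  nlinarith

end Blocks

end Pool.Agent.W_MP_6e7106_pr
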